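import Pool.Agent.Lib.MP_c7ba3e_co.Basic

namespace Pool.Agent.Lib.MP_c7ba3e_co

open Finset

variable {V : Type} [DecidableEq V]

/-- reachability inside `C` -/
def Reach (E : Finset (V × V)) (C : Finset V) (a b : V) : Prop :=
  Relation.ReflTransGen (fun u v => (u, v) ∈ E ∧ u ∈ C ∧ v ∈ C) a b

omit [DecidableEq V] in
theorem Reach.mono {E E' : Finset (V × V)} {C C' : Finset V} {a b : V} (h : Reach E C a b)
    (hE : E ⊆ E') (hC : C ⊆ C') : Reach E' C' a b := by
  induction h with
  | refl => exact Relation.ReflTransGen.refl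
  | tail _ h ih => exact Relation.ReflTransGen.tail ih ⟨hE h.1, hC h.2.1, hC h.2.2⟩

/-- every separator has at least `k` vertices -/
def SepLB (E : Finset (V × V)) (A B : Finset V) (k : ℕ) : Prop :=
  ∀ X T : Finset V, A ⊆ X ∪ T → (∀ x ∈ X, x ∉ B) → (∀ u ∈ X, ∀ v, (u, v) ∈ E → v ∈ X ∪ T) →
    k ≤ T.card

/-- `k` disjoint links -/
def Links (E : Finset (V × V)) (A B : Finset V) (k : ℕ) : Prop :=
  ∃ (C : Fin k → Finset V) (a b : Fin k → V),
    (∀ i, a i ∈ A ∧ b i ∈ B ∧ a i ∈ C i ∧ b i ∈ C i ∧ Reach E (C i) (a i) (b i)) ∧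
    ∀ i j, i ≠ j → ∀ x ∈ C i, x ∉ C j

omit [DecidableEq V] in
theorem surj_aux {k : ℕ} {C : Fin k → Finset V} {b : Fin k → V} {S : Finset V}
    (hS : S.card = k) (hb : ∀ i, b i ∈ S) (hC : ∀ i, b i ∈ C i)
    (hd : ∀ i j, i ≠ j → ∀ x ∈ C i, x ∉ C j) :
    (∀ s ∈ S, ∃ i, b i = s) ∧ ∀ i, ∀ s ∈ S, s ∈ C i → s = b i := by
  classical
  have hinj : Function.Injective b := by
    intro i j hij
    by_contra hne
    exact hd i j hne _ (hC i) (hij ▸ hC j)
  have h1 : univ.image b = S := by
    apply eq_of_subset_of_card_le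
    · intro x hx
      obtain ⟨i, -, rfl⟩ := mem_image.1 hx
      exact hb i
    · rw [card_image_of_injective _ hinj, hS]; simp
  have h2 : ∀ s ∈ S, ∃ i, b i = s := by
    intro s hs
    rw [← h1] at hs
    obtain ⟨i, -, h⟩ := mem_image.1 hs
    exact ⟨i, h⟩
  refine ⟨h2, fun i s hs hsC => ?_⟩
  obtain ⟨j, rfl⟩ := h2 s hs
  by_contra hne
  exact hd j i (fun h => hne (h ▸ rfl)) _ (hC j) hsC

theorem restrict_first {E : Finset (V × V)} {C X S : Finset V} {a b : V}
    (hX : ∀ u ∈ X, ∀ v, (u, v) ∈ E → v ∈ X ∪ S) (hS : ∀ s ∈ S, s ∈ C → s = b)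
    (h : Reach E C a b) (ha : a ∈ X ∨ a = b) :
    Reach E (C.filter fun v => v ∈ X ∨ v = b) a b := by
  induction h using Relation.ReflTransGen.head_induction_on with
  | refl => exact Relation.ReflTransGen.refl
  | @head u v huv _ ih =>
    rcases ha with ha | ha
    · have hv : v ∈ X ∨ v = b := by
        rcases mem_union.1 (hX u ha v huv.1) with h | h
        · exact Or.inl h
        · exact Or.inr (hS v h huv.2.2)
      exact Relation.ReflTransGen.head
        ⟨huv.1, mem_filter.2 ⟨huv.2.1, Or.inl ha⟩, mem_filter.2 ⟨huv.2.2, hv⟩⟩ (ih hv)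
    · rw [ha]; exact Relation.ReflTransGen.refl

theorem restrict_second {E : Finset (V × V)} {C X S : Finset V} {a b : V}
    (hX : ∀ u ∈ X, ∀ v, (u, v) ∈ E → v ∈ X ∪ S) (hS : ∀ s ∈ S, s ∈ C → s = a)
    (h : Reach E C a b) (hb : b ∉ X) :
    Reach E (C.filter fun v => v ∉ X) a b := by
  induction h with
  | refl => exact Relation.ReflTransGen.refl
  | @tail u v _ huv ih =>
    by_cases hu : u ∈ X
    · have := hS v ((mem_union.1 (hX u hu v huv.1)).resolve_left hb) huv.2.2
      rw [this]; exact Relation.ReflTransGen.refl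
    · exact Relation.ReflTransGen.tail (ih hu)
        ⟨huv.1, mem_filter.2 ⟨huv.2.1, hu⟩, mem_filter.2 ⟨huv.2.2, hb⟩⟩

theorem menger (k : ℕ) (E : Finset (V × V)) :
    ∀ A B : Finset V, SepLB E A B k → Links E A B k := by
  induction E using Finset.induction_on with
  | empty =>
    intro A B h
    have h1 := h (A \ B) (A ∩ B) (by intro x; simp only [mem_union, mem_sdiff, mem_inter]; tauto)
      (fun x hx => (mem_sdiff.1 hx).2) (by simp)
    obtain ⟨S, hS, hk⟩ := exists_subset_card_eq h1
    let f : Fin k → V := fun i => (S.equivFin.symm (i.cast hk.symm) : V)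
    have hf : ∀ i, f i ∈ A ∩ B := fun i => hS (S.equivFin.symm _).2
    have hinj : Function.Injective f := by
      intro i j hij
      have := S.equivFin.symm.injective (Subtype.ext hij)
      exact Fin.cast_injective _ this
    refine ⟨fun i => {f i}, f, f, fun i => ⟨(mem_inter.1 (hf i)).1, (mem_inter.1 (hf i)).2,
      mem_singleton_self _, mem_singleton_self _, Relation.ReflTransGen.refl⟩, ?_⟩
    intro i j hij x hx hx'
    exact hij (hinj ((mem_singleton.1 hx).symm.trans (mem_singleton.1 hx')))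
  | @insert e E he ih =>
    intro A B h
    obtain ⟨x, y⟩ := e
    by_cases h' : SepLB E A B k
    · obtain ⟨C, a, b, h1, h2⟩ := ih A B h'
      exact ⟨C, a, b, fun i => ⟨(h1 i).1, (h1 i).2.1, (h1 i).2.2.1, (h1 i).2.2.2.1,
        (h1 i).2.2.2.2.mono (subset_insert _ _) Subset.rfl⟩, h2⟩
    have hex : ∃ X S : Finset V, A ⊆ X ∪ S ∧ (∀ x ∈ X, x ∉ B) ∧
        (∀ u ∈ X, ∀ v, (u, v) ∈ E → v ∈ X ∪ S) ∧ S.card < k ∧ ∀ u ∈ X, u ∉ S := by
      unfold SepLB at h'
      push Not at h'
      obtain ⟨X, S, h1, h2, h3, h4⟩ := h'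
      refine ⟨X \ S, S, by simpa using h1, fun u hu => h2 u (mem_sdiff.1 hu).1,
        fun u hu v huv => by simpa using h3 u (mem_sdiff.1 hu).1 v huv, h4,
        fun u hu => (mem_sdiff.1 hu).2⟩
    obtain ⟨X, S, hA, hB, hX, hS, hXS⟩ := hex
    have hxy : x ∈ X ∧ y ∉ X ∪ S := by
      by_contra hn
      have := h X S hA hB fun u hu v huv => by
        rcases mem_insert.1 huv with h1 | h1
        · obtain ⟨rfl, rfl⟩ := Prod.mk.inj h1
          by_contra h2
          exact hn ⟨hu, h2⟩
        · exact hX u hu v h1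
      omega
    obtain ⟨hx, hy⟩ := hxy
    have hyX : y ∉ X := fun h => hy (mem_union_left _ h)
    have hyS : y ∉ S := fun h => hy (mem_union_right _ h)
    have hk : S.card + 1 = k := by
      have := h X (insert y S) (hA.trans (union_subset_union Subset.rfl (subset_insert _ _))) hB
        fun u hu v huv => by
          rcases mem_insert.1 huv with h1 | h1
          · obtain ⟨rfl, rfl⟩ := Prod.mk.inj h1
            simp
          · exact union_subset_union Subset.rfl (subset_insert _ _) (hX u hu v h1)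
      rw [card_insert_of_notMem hyS] at this
      omega
    obtain ⟨C, a, b, h1, h2⟩ := ih A (insert x S) fun X' T' hA' hB' hX' => by
      refine h (X' ∩ X) T' ?_ (fun u hu => hB u (mem_inter.1 hu).2) ?_
      · intro u hu
        rcases mem_union.1 (hA' hu) with h3 | h3
        · rcases mem_union.1 (hA hu) with h4 | h4
          · exact mem_union_left _ (mem_inter.2 ⟨h3, h4⟩)
          · exact absurd (mem_insert_of_mem h4) (hB' u h3)
        · exact mem_union_right _ h3
      · intro u hu v huv
        rw [mem_inter] at hu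
        rcases mem_insert.1 huv with h3 | h3
        · obtain ⟨rfl, rfl⟩ := Prod.mk.inj h3
          exact absurd (mem_insert_self _ _) (hB' u hu.1)
        · rcases mem_union.1 (hX' u hu.1 v h3) with h4 | h4
          · rcases mem_union.1 (hX u hu.2 v h3) with h5 | h5
            · exact mem_union_left _ (mem_inter.2 ⟨h4, h5⟩)
            · exact absurd (mem_insert_of_mem h5) (hB' v h4)
          · exact mem_union_right _ h4
    obtain ⟨C', a', b', h1', h2'⟩ := ih (insert y S) B fun X' T' hA' hB' hX' => by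
      have hsub : X ∪ S ⊆ X ∪ X' ∪ T' := by
        intro u hu
        rcases mem_union.1 hu with h3 | h3
        · exact mem_union_left _ (mem_union_left _ h3)
        · rw [union_assoc]; exact mem_union_right _ (hA' (mem_insert_of_mem h3))
      refine h (X ∪ X') T' (hA.trans hsub) ?_ ?_
      · intro u hu
        rcases mem_union.1 hu with h3 | h3
        · exact hB u h3
        · exact hB' u h3
      · intro u hu v huv
        rcases mem_insert.1 huv with h3 | h3
        · obtain ⟨rfl, rfl⟩ := Prod.mk.inj h3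
          rw [union_assoc]; exact mem_union_right _ (hA' (mem_insert_self _ _))
        · rcases mem_union.1 hu with h4 | h4
          · exact hsub (hX u h4 v h3)
          · rw [union_assoc]; exact mem_union_right _ (hX' u h4 v h3)
    obtain ⟨-, hb⟩ := surj_aux (S := insert x S) (by rw [card_insert_of_notMem (hXS x hx), hk])
      (fun i => (h1 i).2.1) (fun i => (h1 i).2.2.2.1) h2
    obtain ⟨ha', ha''⟩ := surj_aux (S := insert y S) (by rw [card_insert_of_notMem hyS, hk])
      (fun i => (h1' i).1) (fun i => (h1' i).2.2.1) h2'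
    have hτ : ∀ i, ∃ j, a' j = if b i = x then y else b i := by
      intro i
      apply ha'
      split_ifs with h3
      · exact mem_insert_self _ _
      · exact mem_insert_of_mem ((mem_insert.1 (h1 i).2.1).resolve_left h3)
    choose σ hσ using hτ
    have hbinj : ∀ i j, b i = b j → i = j := by
      intro i j hij
      by_contra hne
      exact h2 i j hne _ (h1 i).2.2.2.1 (hij ▸ (h1 j).2.2.2.1)
    have hbS : ∀ i, b i ≠ x → b i ∈ S := fun i h3 => (mem_insert.1 (h1 i).2.1).resolve_left h3
    have hσinj : ∀ i j, σ i = σ j → i = j := by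
      intro i j hij
      have h3 := hσ i
      rw [hij, hσ j] at h3
      apply hbinj
      split_ifs at h3 with h4 h5 h5
      · rw [h4, h5]
      · exact absurd (h3 ▸ hbS i h5) hyS
      · exact absurd (h3 ▸ hbS j h4) hyS
      · exact h3.symm
    have ha'X : ∀ j, a' j ∉ X := by
      intro j hj
      rcases mem_insert.1 (h1' j).1 with h3 | h3
      · exact hyX (h3 ▸ hj)
      · exact hXS _ hj h3
    have cross : ∀ i j, i ≠ j → ∀ v ∈ (C i).filter (fun v => v ∈ X ∨ v = b i),
        v ∉ (C' (σ j)).filter (fun v => v ∉ X) := by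
      intro i j hij v hv hv'
      rw [mem_filter] at hv hv'
      have h3 : v = b i := hv.2.resolve_left hv'.2
      have h4 : v ∈ S := h3 ▸ hbS i fun h => hv'.2 (h3 ▸ h ▸ hx)
      have h5 := ha'' (σ j) v (mem_insert_of_mem h4) hv'.1
      rw [hσ j] at h5
      split_ifs at h5 with h6
      · exact hyS (h5 ▸ h4)
      · exact hij (hbinj i j (h3 ▸ h5))
    refine ⟨fun i => (C i).filter (fun v => v ∈ X ∨ v = b i) ∪ (C' (σ i)).filter (fun v => v ∉ X),
      a, fun i => b' (σ i), fun i => ?_, ?_⟩
    · have haX : a i ∈ X ∨ a i = b i := by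
        rcases mem_union.1 (hA (h1 i).1) with h3 | h3
        · exact Or.inl h3
        · exact Or.inr (hb i _ (mem_insert_of_mem h3) (h1 i).2.2.1)
      have hbX : b' (σ i) ∉ X := fun h3 => hB _ h3 (h1' _).2.1
      refine ⟨(h1 i).1, (h1' _).2.1, mem_union_left _ (mem_filter.2 ⟨(h1 i).2.2.1, haX⟩),
        mem_union_right _ (mem_filter.2 ⟨(h1' _).2.2.2.1, hbX⟩), ?_⟩
      have r1 := (restrict_first hX (fun s hs => hb i s (mem_insert_of_mem hs))
        (h1 i).2.2.2.2 haX).mono (subset_insert (x, y) E)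
        (subset_union_left (s₂ := (C' (σ i)).filter (fun v => v ∉ X)))
      have r2 := (restrict_second hX (fun s hs => ha'' (σ i) s (mem_insert_of_mem hs))
        (h1' (σ i)).2.2.2.2 hbX).mono (subset_insert (x, y) E)
        (subset_union_right (s₁ := (C i).filter (fun v => v ∈ X ∨ v = b i)))
      have h3 := hσ i
      split_ifs at h3 with h4
      · refine Relation.ReflTransGen.trans r1 (Relation.ReflTransGen.head ⟨?_, ?_, ?_⟩ r2)
        · rw [h3, h4]; exact mem_insert_self _ _
        · exact mem_union_left _ (mem_filter.2 ⟨(h1 i).2.2.2.1, Or.inr rfl⟩)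
        · exact mem_union_right _ (mem_filter.2 ⟨(h1' _).2.2.1, ha'X _⟩)
      · rw [h3] at r2
        exact Relation.ReflTransGen.trans r1 r2
    · intro i j hij v hv hv'
      rcases mem_union.1 hv with h3 | h3 <;> rcases mem_union.1 hv' with h4 | h4
      · exact h2 i j hij v (mem_filter.1 h3).1 (mem_filter.1 h4).1
      · exact cross i j hij v h3 h4
      · exact cross j i hij.symm v h4 h3
      · exact h2' _ _ (fun h => hij (hσinj i j h)) v (mem_filter.1 h3).1 (mem_filter.1 h4).1

omit [DecidableEq V] in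
theorem exists_path {p : V → V → Prop} {a b : V} (h : Relation.ReflTransGen p a b) :
    ∃ l : List V, (a :: l).Nodup ∧ (a :: l).IsChain p ∧ (a :: l).getLast (by simp) = b := by
  induction h using Relation.ReflTransGen.head_induction_on with
  | refl => exact ⟨[], by simp, by simp, rfl⟩
  | @head u v huv _ ih =>
    obtain ⟨l, h1, h2, h3⟩ := ih
    by_cases hu : u ∈ v :: l
    · obtain ⟨s, t, hst⟩ := List.append_of_mem hu
      refine ⟨t, ?_, ?_, ?_⟩
      · rw [hst] at h1; exact h1.of_append_right
      · rw [hst] at h2; exact (List.isChain_append.1 h2).2.1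
      · rw [← h3]; simp only [hst]; simp
    · exact ⟨v :: l, List.nodup_cons.2 ⟨hu, h1⟩, List.isChain_cons_cons.2 ⟨huv, h2⟩, by
        rw [← h3]; simp⟩

end Pool.Agent.Lib.MP_c7ba3e_co
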