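import Mathlib

namespace Pool.Agent.Lib.MP_c7ba3e_co

open Finset

variable {V : Type} [Fintype V] [DecidableEq V]

/-- no arc from `P` to `Q` -/
def NoArc (r : V → V → Prop) (P Q : Finset V) : Prop := ∀ a ∈ P, ∀ b ∈ Q, ¬ r a b

/-- the middle part -/
def mid (P Q : Finset V) : Finset V := (P ∪ Q)ᶜ

@[simp] theorem mem_mid {P Q : Finset V} {x : V} : x ∈ mid P Q ↔ x ∉ P ∧ x ∉ Q := by
  simp [mid]

theorem mid_comm (P Q : Finset V) : mid P Q = mid Q P := by
  ext x; simp [and_comm]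

/-- separation -/
structure Sep (r : V → V → Prop) (P Q : Finset V) : Prop where
  disj : ∀ x ∈ P, x ∉ Q
  noarc : NoArc r P Q

/-- cut of order at most `m` for the vertex `w` -/
structure Cut (r : V → V → Prop) (m : ℕ) (w : V) (P Q : Finset V) : Prop where
  memP : w ∈ P
  memQ : w ∈ Q
  inter : ∀ x ∈ P, x ∈ Q → x = w
  noarc : NoArc r P Q
  ord : (mid P Q).card ≤ m

/-- out-degree at least `d` -/
def OutD (r : V → V → Prop) (d : ℕ) (v : V) : Prop :=
  ∀ S : Finset V, (∀ u, r v u → u ∈ S) → d ≤ S.card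

/-- in-degree at least `d` -/
def InD (r : V → V → Prop) (d : ℕ) (v : V) : Prop :=
  ∀ S : Finset V, (∀ u, r u v → u ∈ S) → d ≤ S.card

/-- strong `c`-connectivity -/
def Conn (r : V → V → Prop) (c : ℕ) : Prop :=
  ∀ P Q, Sep r P Q → P.Nonempty → Q.Nonempty → c ≤ (mid P Q).card

variable {r : V → V → Prop}

omit [Fintype V] [DecidableEq V] in
theorem NoArc.flip {P Q : Finset V} (h : NoArc r P Q) : NoArc (flip r) Q P :=
  fun a ha b hb => h b hb a ha

omit [Fintype V] [DecidableEq V] in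
theorem Sep.flip {P Q : Finset V} (h : Sep r P Q) : Sep (flip r) Q P :=
  ⟨fun x hx hx' => h.disj x hx' hx, h.noarc.flip⟩

theorem Cut.flip {m : ℕ} {w : V} {P Q : Finset V} (h : Cut r m w P Q) : Cut (flip r) m w Q P :=
  ⟨h.memQ, h.memP, fun x hx hx' => h.inter x hx' hx, h.noarc.flip, by rw [mid_comm]; exact h.ord⟩

theorem Conn.flip {c : ℕ} (h : Conn r c) : Conn (flip r) c := fun P Q hs hP hQ => by
  rw [mid_comm]; exact h Q P hs.flip hQ hP

omit [Fintype V] [DecidableEq V] in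
theorem NoArc.mono {P Q P' Q' : Finset V} (h : NoArc r P Q) (hP : P' ⊆ P) (hQ : Q' ⊆ Q) :
    NoArc r P' Q' := fun a ha b hb => h a (hP ha) b (hQ hb)

omit [Fintype V] in
theorem NoArc.inter_union {P Q P' Q' : Finset V} (h : NoArc r P Q) (h' : NoArc r P' Q') :
    NoArc r (P ∩ P') (Q ∪ Q') := by
  intro a ha b hb
  rw [mem_inter] at ha
  rcases mem_union.1 hb with hb | hb
  · exact h a ha.1 b hb
  · exact h' a ha.2 b hb

omit [Fintype V] in
theorem NoArc.union_inter {P Q P' Q' : Finset V} (h : NoArc r P Q) (h' : NoArc r P' Q') :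
    NoArc r (P ∪ P') (Q ∩ Q') := by
  intro a ha b hb
  rw [mem_inter] at hb
  rcases mem_union.1 ha with ha | ha
  · exact h a ha b hb.1
  · exact h' a ha b hb.2

theorem corner (P Q P' Q' : Finset V) :
    (mid (P ∩ P') (Q ∪ Q')).card + (mid (P ∪ P') (Q ∩ Q')).card ≤
      (mid P Q).card + (mid P' Q').card := by
  rw [← card_union_add_card_inter, ← card_union_add_card_inter (mid P Q)]
  refine add_le_add (card_le_card ?_) (card_le_card ?_)
  · intro x; simp only [mem_union, mem_mid, mem_inter]; tauto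
  · intro x; simp only [mem_union, mem_mid, mem_inter]; tauto

theorem corner' (P Q P' Q' : Finset V) {x : V} (hx : x ∈ mid P Q) (hP : x ∈ P') (hQ : x ∈ Q') :
    (mid (P ∩ P') (Q ∪ Q')).card + (mid (P ∪ P') (Q ∩ Q')).card + 1 ≤
      (mid P Q).card + (mid P' Q').card := by
  rw [← card_union_add_card_inter, ← card_union_add_card_inter (mid P Q)]
  have h1 : (mid (P ∩ P') (Q ∪ Q') ∪ mid (P ∪ P') (Q ∩ Q')).card + 1 ≤
      (mid P Q ∪ mid P' Q').card := by
    apply card_lt_card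
    refine ⟨?_, fun h => ?_⟩
    · intro x; simp only [mem_union, mem_mid, mem_inter]; tauto
    · have := h (mem_union_left _ hx)
      simp only [mem_union, mem_mid, mem_inter] at this; tauto
  have h2 : (mid (P ∩ P') (Q ∪ Q') ∩ mid (P ∪ P') (Q ∩ Q')).card ≤ (mid P Q ∩ mid P' Q').card := by
    refine card_le_card ?_
    intro x; simp only [mem_union, mem_mid, mem_inter]; tauto
  omega

theorem Cut.sepL {m : ℕ} {w : V} {P Q : Finset V} (h : Cut r m w P Q) : Sep r (P.erase w) Q :=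
  ⟨fun x hx hQ => (mem_erase.1 hx).1 (h.inter x (mem_erase.1 hx).2 hQ),
    h.noarc.mono (erase_subset _ _) Subset.rfl⟩

theorem Cut.sepR {m : ℕ} {w : V} {P Q : Finset V} (h : Cut r m w P Q) : Sep r P (Q.erase w) :=
  ⟨fun x hx hQ => (mem_erase.1 hQ).1 (h.inter x hx (mem_erase.1 hQ).2),
    h.noarc.mono Subset.rfl (erase_subset _ _)⟩

theorem Cut.midL {m : ℕ} {w : V} {P Q : Finset V} (h : Cut r m w P Q) :
    mid (P.erase w) Q = mid P Q := by
  ext x; simp only [mem_mid, mem_erase]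
  constructor
  · rintro ⟨h1, h2⟩
    exact ⟨fun hx => h1 ⟨fun e => h2 (e ▸ h.memQ), hx⟩, h2⟩
  · tauto

theorem Cut.midR {m : ℕ} {w : V} {P Q : Finset V} (h : Cut r m w P Q) :
    mid P (Q.erase w) = mid P Q := by
  ext x; simp only [mem_mid, mem_erase]
  constructor
  · rintro ⟨h1, h2⟩
    exact ⟨h1, fun hx => h2 ⟨fun e => h1 (e ▸ h.memP), hx⟩⟩
  · tauto

/-- an out-neighbour on the out-side of a cut -/
theorem Cut.exists_out {m : ℕ} {w : V} {P Q : Finset V} (h : Cut r m w P Q)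
    (hd : OutD r (m + 1) w) : ∃ u ∈ P.erase w, r w u := by
  by_contra hne
  push Not at hne
  have := hd (mid P Q) fun u hu => by
    have hQ : u ∉ Q := fun hQ => h.noarc w h.memP u hQ hu
    refine mem_mid.2 ⟨fun hP => hne u (mem_erase.2 ⟨fun e => hQ (e ▸ h.memQ), hP⟩) hu, hQ⟩
  have := h.ord
  omega

theorem Cut.exists_in {m : ℕ} {w : V} {P Q : Finset V} (h : Cut r m w P Q)
    (hd : InD r (m + 1) w) : ∃ u ∈ Q.erase w, r u w :=
  h.flip.exists_out hd

/-- corners of a separation with a cut of a vertex of its out-side -/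
theorem Sep.cornerP {m : ℕ} {X Y P Q : Finset V} {w : V} (hs : Sep r X Y) (hc : Cut r m w P Q)
    (hw : w ∈ X) :
    Sep r (X ∪ P) (Y ∩ Q) ∧
      ((mid (X ∩ P) (Y ∪ Q)).card ≤ m → Cut r m w (X ∩ P) (Y ∪ Q)) := by
  refine ⟨⟨?_, hs.noarc.union_inter hc.noarc⟩, fun ho => ⟨mem_inter.2 ⟨hw, hc.memP⟩,
    mem_union_right _ hc.memQ, ?_, hs.noarc.inter_union hc.noarc, ho⟩⟩
  · intro x hx hx'
    rw [mem_inter] at hx'
    rcases mem_union.1 hx with hx | hx
    · exact hs.disj x hx hx'.1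
    · exact hs.disj w hw (hc.inter x hx hx'.2 ▸ hx'.1)
  · intro x hx hx'
    rw [mem_inter] at hx
    rcases mem_union.1 hx' with hx' | hx'
    · exact absurd hx' (hs.disj x hx.1)
    · exact hc.inter x hx.2 hx'

/-- corners of a separation with a cut of a vertex of its in-side -/
theorem Sep.cornerQ {m : ℕ} {X Y P Q : Finset V} {w : V} (hs : Sep r X Y) (hc : Cut r m w P Q)
    (hw : w ∈ Y) :
    Sep r (X ∩ P) (Y ∪ Q) ∧
      ((mid (X ∪ P) (Y ∩ Q)).card ≤ m → Cut r m w (X ∪ P) (Y ∩ Q)) := by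
  obtain ⟨h1, h2⟩ := hs.flip.cornerP hc.flip hw
  exact ⟨h1.flip, fun ho => (h2 (by rw [mid_comm]; exact ho)).flip⟩

/-- corners of a separation with a cut of a vertex of its middle -/
theorem Sep.cornerT {m : ℕ} {X Y P Q : Finset V} {w : V} (hs : Sep r X Y) (hc : Cut r m w P Q)
    (hw : w ∈ mid X Y) :
    Sep r (X ∩ P) (Y ∪ Q) ∧ Sep r (X ∪ P) (Y ∩ Q) := by
  rw [mem_mid] at hw
  refine ⟨⟨?_, hs.noarc.inter_union hc.noarc⟩, ⟨?_, hs.noarc.union_inter hc.noarc⟩⟩
  · intro x hx hx'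
    rw [mem_inter] at hx
    rcases mem_union.1 hx' with hx' | hx'
    · exact hs.disj x hx.1 hx'
    · exact hw.1 (hc.inter x hx.2 hx' ▸ hx.1)
  · intro x hx hx'
    rw [mem_inter] at hx'
    rcases mem_union.1 hx with hx | hx
    · exact hs.disj x hx hx'.1
    · exact hw.2 (hc.inter x hx hx'.2 ▸ hx'.1)

omit [Fintype V] in
theorem Sep.cornerS {X Y P Q : Finset V} (hs : Sep r X Y) (hc : Sep r P Q) :
    Sep r (X ∩ P) (Y ∪ Q) ∧ Sep r (X ∪ P) (Y ∩ Q) := by
  refine ⟨⟨?_, hs.noarc.inter_union hc.noarc⟩, ⟨?_, hs.noarc.union_inter hc.noarc⟩⟩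
  · intro x hx hx'
    rw [mem_inter] at hx
    rcases mem_union.1 hx' with hx' | hx'
    · exact hs.disj x hx.1 hx'
    · exact hc.disj x hx.2 hx'
  · intro x hx hx'
    rw [mem_inter] at hx'
    rcases mem_union.1 hx with hx | hx
    · exact hs.disj x hx hx'.1
    · exact hc.disj x hx hx'.2

/-- size comparison -/
theorem size_lt {X Y P Q : Finset V} (hd : ∀ x ∈ Y, x ∉ Q)
    (h : (mid X Y).card < (mid (X ∩ P) (Y ∪ Q)).card) : Q.card < X.card := by
  have h1 : (mid (X ∩ P) (Y ∪ Q) ∪ Q).card = (mid (X ∩ P) (Y ∪ Q)).card + Q.card := by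
    apply card_union_of_disjoint
    rw [disjoint_left]
    intro x; simp only [mem_mid, mem_union, mem_inter]; tauto
  have h2 : (mid (X ∩ P) (Y ∪ Q) ∪ Q).card ≤ (mid X Y ∪ X).card := by
    apply card_le_card
    intro x; simp only [mem_mid, mem_union, mem_inter]
    have := hd x
    tauto
  have h3 := card_union_le (mid X Y) X
  omega

theorem size_lt' {X Y P Q : Finset V} (hd : ∀ x ∈ X, x ∉ P)
    (h : (mid X Y).card < (mid (X ∪ P) (Y ∩ Q)).card) : P.card < Y.card :=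
  size_lt (X := Y) (Y := X) (P := Q) (Q := P) hd (by rwa [mid_comm Y X, mid_comm (Y ∩ Q)])

/-- minimal element of a family of pairs, for a size function -/
theorem exists_min {α : Type} (p : α → Prop) (f : α → ℕ) (h : ∃ a, p a) :
    ∃ a, p a ∧ ∀ b, p b → f a ≤ f b := by
  classical
  have h' : ∃ n, ∃ a, p a ∧ f a = n := let ⟨a, ha⟩ := h; ⟨_, a, ha, rfl⟩
  obtain ⟨a, ha, e⟩ := Nat.find_spec h'
  exact ⟨a, ha, fun b hb => e ▸ Nat.find_min' h' ⟨b, hb, rfl⟩⟩

omit [DecidableEq V] in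
theorem exists_max {α : Type} (p : α → Prop) (f : α → Finset V) (h : ∃ a, p a) :
    ∃ a, p a ∧ ∀ b, p b → (f b).card ≤ (f a).card := by
  obtain ⟨a, ha, hm⟩ := exists_min p (fun a => Fintype.card V - (f a).card) h
  refine ⟨a, ha, fun b hb => ?_⟩
  have := hm b hb
  have h1 := card_le_univ (f a)
  have h2 := card_le_univ (f b)
  omega

end Pool.Agent.Lib.MP_c7ba3e_co
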