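import Mathlib

namespace Pool.Agent.Lib.MP_c7ba3e_co

/-- `G` is loopless and every node has out-degree and in-degree exactly `k`. -/
def IsDiregular {V : Type} (G : Digraph V) (k : ℕ) : Prop :=
  ∀ v, ¬ G.Adj v v ∧ {w | G.Adj v w}.ncard = k ∧ {u | G.Adj u v}.ncard = k

/-- `v, c₁, …, cₘ, v` (with `c = [c₁, …, cₘ]`, `m ≥ 1`) is a directed cycle of `G`. -/
def IsCycleAt {V : Type} (G : Digraph V) (v : V) (c : List V) : Prop :=
  c ≠ [] ∧ (v :: c).Nodup ∧ List.IsChain G.Adj (v :: c ++ [v])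

/-- Property (S) of `k`. -/
def PropertyS (k : ℕ) : Prop :=
  ∀ (V : Type) [Finite V] [Nonempty V] (G : Digraph V), IsDiregular G k →
    ∃ (v : V) (C : Fin k → List V),
      (∀ i, IsCycleAt G v (C i)) ∧ ∀ i j, i ≠ j → List.Disjoint (C i) (C j)

end Pool.Agent.Lib.MP_c7ba3e_co
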