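import Mathlib
import Pool.Agent.Lib.MP_c7ba3e_co.Defs

namespace Pool.Agent.Lib.MP_c7ba3e_co

theorem chain_meets {V : Type} (G : Digraph V) (v : V) (X S : V → Prop)
    (hX : ∀ u, X u → ∀ w, G.Adj u w → (X w ∨ S w) ∧ w ≠ v) :
    ∀ (l : List V) (a : V), X a → List.IsChain G.Adj (a :: l ++ [v]) → ∃ s ∈ l, S s := by
  intro l
  induction l with
  | nil =>
    intro a ha h
    simp only [List.cons_append, List.nil_append, List.isChain_cons_cons] at h
    exact absurd rfl (hX a ha v h.1).2
  | cons b l ih =>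
    intro a ha h
    simp only [List.cons_append, List.isChain_cons_cons] at h
    rcases (hX a ha b h.1).1 with hb | hb
    · obtain ⟨s, hs, hS⟩ := ih b hb (by simpa using h.2)
      exact ⟨s, List.mem_cons_of_mem _ hs, hS⟩
    · exact ⟨b, List.mem_cons_self, hb⟩

theorem cycle_meets {V : Type} (G : Digraph V) (v : V) (X S : V → Prop)
    (hv : ∀ w, G.Adj v w → X w ∨ S w)
    (hX : ∀ u, X u → ∀ w, G.Adj u w → (X w ∨ S w) ∧ w ≠ v)
    (c : List V) (hc : IsCycleAt G v c) : ∃ s ∈ c, S s := by
  obtain ⟨hne, -, hch⟩ := hc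
  cases c with
  | nil => exact absurd rfl hne
  | cons b l =>
    simp only [List.cons_append, List.isChain_cons_cons] at hch
    rcases hv b hch.1 with hb | hb
    · obtain ⟨s, hs, hS⟩ := chain_meets G v X S hX l b hb (by simpa using hch.2)
      exact ⟨s, List.mem_cons_of_mem _ hs, hS⟩
    · exact ⟨b, List.mem_cons_self, hb⟩

theorem no_cycles_of_cut {V : Type} [Fintype V] (G : Digraph V) (k : ℕ) (v : V) (X S : V → Prop)
    [DecidablePred S]
    (hv : ∀ w, G.Adj v w → X w ∨ S w)
    (hX : ∀ u, X u → ∀ w, G.Adj u w → (X w ∨ S w) ∧ w ≠ v)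
    (hS : (Finset.univ.filter S).card < k) (C : Fin k → List V)
    (hC : ∀ i, IsCycleAt G v (C i)) (hd : ∀ i j, i ≠ j → List.Disjoint (C i) (C j)) : False := by
  choose s hs hsS using fun i => cycle_meets G v X S hv hX (C i) (hC i)
  have hinj : Function.Injective s := by
    intro i j hij
    by_contra hne
    exact hd i j hne (hs i) (hij ▸ hs j)
  have : (Finset.univ : Finset (Fin k)).card ≤ (Finset.univ.filter S).card :=
    Finset.card_le_card_of_injOn s (fun i _ => by simpa using hsS i) hinj.injOn
  simp only [Finset.card_univ, Fintype.card_fin] at this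
  omega

/-- digraph on `Fin N` from a list of bit masks -/
def maskGraph (N : ℕ) (A : List ℕ) : Digraph (Fin N) :=
  ⟨fun u w => (A.getD u 0).testBit w = true⟩

instance (N : ℕ) (A : List ℕ) : DecidableRel (maskGraph N A).Adj := fun u w =>
  inferInstanceAs (Decidable ((A.getD u 0).testBit w = true))

/-- the finite certificate -/
def Cert (k N : ℕ) (A X S : List ℕ) : Prop :=
  ∀ v : Fin N,
    ((A.getD v 0).testBit v = false ∧
      (Finset.univ.filter fun w : Fin N => (A.getD v 0).testBit w = true).card = k ∧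
      (Finset.univ.filter fun u : Fin N => (A.getD u 0).testBit v = true).card = k) ∧
    (Finset.univ.filter fun w : Fin N => (S.getD v 0).testBit w = true).card < k ∧
    (∀ w : Fin N, (A.getD v 0).testBit w = true →
      (X.getD v 0).testBit w = true ∨ (S.getD v 0).testBit w = true) ∧
    ∀ u : Fin N, (X.getD v 0).testBit u = true → ∀ w : Fin N, (A.getD u 0).testBit w = true →
      ((X.getD v 0).testBit w = true ∨ (S.getD v 0).testBit w = true) ∧ w ≠ v

instance (k N : ℕ) (A X S : List ℕ) : Decidable (Cert k N A X S) := by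
  unfold Cert; infer_instance

theorem not_propertyS_of_cert (k N : ℕ) [NeZero N] (A X S : List ℕ) (h : Cert k N A X S) :
    ¬ PropertyS k := by
  intro hS
  have hreg : IsDiregular (maskGraph N A) k := by
    intro v
    obtain ⟨⟨h1, h2, h3⟩, -⟩ := h v
    refine ⟨fun h => by have h' : (A.getD v 0).testBit v = true := h; simp_all, ?_, ?_⟩
    · rw [← h2, ← Set.ncard_coe_finset]
      congr 1; ext w; simp [maskGraph]
    · rw [← h3, ← Set.ncard_coe_finset]
      congr 1; ext w; simp [maskGraph]
  obtain ⟨v, C, hC, hd⟩ := hS (Fin N) (maskGraph N A) hreg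
  obtain ⟨-, h4, h5, h6⟩ := h v
  exact no_cycles_of_cut (maskGraph N A) k v (fun w => (X.getD v 0).testBit w = true)
    (fun w => (S.getD v 0).testBit w = true) h5 h6 h4 C hC hd

end Pool.Agent.Lib.MP_c7ba3e_co
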