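import Mathlib
import Pool.Agent.Lib.MP_c7ba3e_co.Cut

namespace Pool.Agent.Lib.MP_c7ba3e_co

open Finset

theorem card_val_lt (m q : ℕ) [NeZero m] (hm : q ≤ m) :
    (univ.filter fun x : ZMod m => x.val < q).card = q := by
  rw [← card_range q]
  refine card_bij (fun x _ => x.val) (fun x hx => mem_range.2 (by simpa using hx))
    (fun x _ y _ h => ZMod.val_injective m h) fun b hb => ?_
  have hb' : b < q := by simpa using hb
  refine ⟨(b : ZMod m), ?_, ZMod.val_cast_of_lt (by omega)⟩
  simp only [card_range, mem_filter, mem_univ, true_and]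
  rwa [ZMod.val_cast_of_lt (by omega)]

theorem card_blow {α : Type} [Fintype α] [DecidableEq α] (m q k : ℕ) [NeZero m] (hm : q ≤ m)
    (p : α → Prop) [DecidablePred p] (a : α) (ha : p a) (hk : (univ.filter p).card = k + 1)
    (e : ZMod m ≃ ZMod m) :
    (univ.filter fun x : α × ZMod m => p x.1 ∧ (x.1 = a → (e x.2).val < q)).card = k * m + q := by
  have h1 : (univ.filter fun x : α × ZMod m => p x.1 ∧ (x.1 = a → (e x.2).val < q)) =
      ((univ.filter p).erase a) ×ˢ univ ∪ {a} ×ˢ (univ.filter fun x : ZMod m => (e x).val < q) := by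
    ext ⟨x, j⟩
    simp only [mem_filter, mem_univ, true_and, mem_union, mem_product, mem_erase, and_true,
      mem_singleton]
    by_cases h : x = a
    · subst h; simp [ha]
    · simp [h]
  have h2 : (univ.filter fun x : ZMod m => (e x).val < q).card = q := by
    exact (card_bijective e e.bijective (by simp)).trans (card_val_lt m q hm)
  rw [h1, card_union_of_disjoint, card_product, card_product, card_erase_of_mem (by simpa using ha),
    hk, h2]
  · simp
  · rw [disjoint_left]
    rintro ⟨x, j⟩ h3 h4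
    simp only [mem_product, mem_erase, mem_singleton] at h3 h4
    exact h3.1.1 h4.1

theorem not_propertyS_blow (k N : ℕ) [NeZero N] (A X S : List ℕ) (h : Cert (k + 1) N A X S)
    (f g : Fin N → Fin N)
    (hf : ∀ u : Fin N, (A.getD u 0).testBit (f u) = true ∧ g (f u) = u ∧ f (g u) = u)
    (m q : ℕ) (hq : 0 < q) (hm : q ≤ m) : ¬ PropertyS (k * m + q) := by
  intro hS
  have : NeZero m := ⟨by omega⟩
  let G : Digraph (Fin N × ZMod m) :=
    ⟨fun u w => (A.getD u.1 0).testBit w.1 = true ∧ (w.1 = f u.1 → (w.2 - u.2).val < q)⟩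
  have hreg : IsDiregular G (k * m + q) := by
    rintro ⟨v, i⟩
    obtain ⟨⟨h1, h2, h3⟩, -⟩ := h v
    refine ⟨fun h => by have h' : (A.getD v 0).testBit v = true := h.1; simp_all, ?_, ?_⟩
    · rw [← card_blow m q k hm (fun w : Fin N => (A.getD v 0).testBit w = true) (f v) (hf v).1 h2
        (Equiv.subRight i), ← Set.ncard_coe_finset]
      congr 1; ext w; simp [G]
    · have h4 : (A.getD (g v) 0).testBit v = true := by
        have := (hf (g v)).1
        rwa [(hf v).2.2] at this
      rw [← card_blow m q k hm (fun u : Fin N => (A.getD u 0).testBit v = true) (g v) h4 h3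
        (Equiv.subLeft i), ← Set.ncard_coe_finset]
      congr 1; ext w
      have h5 : v = f w.1 ↔ w.1 = g v :=
        ⟨fun h => by rw [h, (hf _).2.1], fun h => by rw [h, (hf _).2.2]⟩
      simp [G, h5]
  obtain ⟨⟨v, i⟩, C, hC, hd⟩ := hS (Fin N × ZMod m) G hreg
  obtain ⟨-, h4, h5, h6⟩ := h v
  refine no_cycles_of_cut G (k * m + q) (v, i) (fun w => (X.getD v 0).testBit w.1 = true)
    (fun w => (S.getD v 0).testBit w.1 = true) (fun w hw => h5 w.1 hw.1)
    (fun u hu w hw => ⟨(h6 u.1 hu w.1 hw.1).1, fun e => (h6 u.1 hu w.1 hw.1).2 (by rw [e])⟩)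
    ?_ C hC hd
  have h7 : (univ.filter fun w : Fin N × ZMod m => (S.getD v 0).testBit w.1 = true) =
      (univ.filter fun w : Fin N => (S.getD v 0).testBit w = true) ×ˢ univ := by
    ext w; simp
  rw [h7, card_product, card_univ, ZMod.card]
  have := Nat.mul_le_mul_right m (Nat.lt_succ_iff.1 h4)
  omega

end Pool.Agent.Lib.MP_c7ba3e_co
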