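import Mathlib
import Pool.Agent.Lib.MP_c7ba3e_co.Cut

namespace Pool.Agent.Lib.MP_c7ba3e_co

theorem not_propertyS_5 : ¬ PropertyS 5 :=
  not_propertyS_of_cert 5 35
    [197920, 55304, 55304, 817, 590, 205952, 205952, 595, 140448, 55300, 65953, 628, 51210, 197824, 35340, 279, 339, 2240020480, 26073890816, 26881294336, 13560184832, 5374476288, 26342326272, 874774528, 19901972480, 2508193792, 26040598528, 4871684096, 2240020480, 5504499712, 135802880, 92286976, 1209548800, 5504499712, 2441347072]
    [8544, 16900, 4098, 75233, 20998, 8256, 1313, 55838, 8288, 4102, 121502, 75257, 126457, 122527, 110073, 75257, 55838, 26843283456, 14637727743, 19726335999, 19860553727, 14496694271, 19705364479, 14705098751, 14637727743, 2416181247, 14637989887, 19726335999, 2147745791, 5368840191, 131071, 131071, 1073872895, 5368840191, 2416181247]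
    [197760, 38920, 51208, 131602, 34888, 197760, 204928, 353, 197760, 51208, 353, 131590, 131590, 131424, 131590, 131590, 353, 7516192768, 17481990144, 10202644480, 13423869952, 139067392, 9145679872, 17481990144, 19361038336, 92536832, 17481990144, 13423869952, 92536832, 135921664, 135921664, 92405760, 135921664, 135921664, 92536832]
    (by decide +kernel)

theorem not_propertyS_6 : ¬ PropertyS 6 :=
  not_propertyS_of_cert 6 25
    [1960, 2837, 1464, 6215, 7235, 1944, 6159, 1848, 5639, 6230, 6215, 952, 15400960, 11223040, 15400960, 15286272, 18653184, 22331392, 17866848, 12779680, 17080512, 18145280, 20209664, 3579904, 13320192]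
    [160, 2213, 160, 1810, 1096, 1882, 2471, 1882, 1624, 1112, 72, 160, 31711232, 548863, 532479, 548863, 1314815, 7606271, 4095, 4095, 4095, 1314815, 3411967, 7737343, 548863]
    [1816, 1816, 1816, 6213, 6151, 6277, 5656, 6181, 6151, 6151, 6151, 1816, 1835008, 14876672, 14876672, 14876672, 17346560, 16838656, 17870848, 12783616, 17084416, 16838656, 16838656, 16838656, 14876672]
    (by decide +kernel)

theorem not_propertyS_7 : ¬ PropertyS 7 :=
  not_propertyS_of_cert 7 27
    [13702, 10872, 10872, 4563, 5571, 10842, 5511, 3896, 11820, 4303, 10868, 1948, 9607, 88719360, 76939297, 77479936, 131088384, 48857088, 53182464, 23167009, 26181632, 110510080, 104218624, 57245696, 108281856, 23695360, 9852928]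
    [3494, 3460, 34, 4177, 4161, 6745, 4097, 1318, 1062, 4185, 38, 4697, 3494, 32997376, 8191, 67133439, 90202111, 42475519, 42606591, 8191, 42868735, 67133439, 69230591, 34086911, 73424895, 532479, 8191]
    [12888, 8824, 10840, 9606, 9606, 9606, 9606, 10840, 10840, 9606, 10840, 9606, 8793, 101203968, 76947456, 10362880, 43393024, 23175168, 23175168, 23175168, 23175168, 43393024, 43393024, 23175168, 43393024, 23175168, 9854976]
    (by decide +kernel)

end Pool.Agent.Lib.MP_c7ba3e_co
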