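import Pool.Agent.Lib.MP_c7ba3e_co.Basic

namespace Pool.Agent.Lib.MP_c7ba3e_co

open Finset

variable {V : Type} [Fintype V] [DecidableEq V] {r : V → V → Prop}

structure L5Data (r : V → V → Prop) (z : V) (E : Finset V) : Prop where
  irr : ∀ v, ¬ r v v
  conn : Conn r 3
  hE : ∀ s ∈ E, r z s
  one : ∀ s ∈ E, ∀ s' ∈ E, s = s'
  outd : ∀ v, v ≠ z → OutD r 4 v
  ind : ∀ v, v ≠ z → v ∉ E → InD r 4 v
  hz : E.Nonempty → InD r 4 z
  cuts : ∀ v, v ≠ z → ∃ P Q, Cut r 3 v P Q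
  ex : ∃ v, v ≠ z ∧ v ∉ E

/-- `m` is a lower bound for the sizes of all small sides. -/
structure Low (r : V → V → Prop) (z : V) (E : Finset V) (m : ℕ) : Prop where
  lowO : ∀ F Y, Sep r F Y → (mid F Y).card ≤ 3 → F.Nonempty → Y.Nonempty → z ∉ F → m ≤ F.card
  lowI : ∀ Z F, Sep r Z F → (mid Z F).card ≤ 3 → Z.Nonempty → F.Nonempty → z ∉ F →
    (∀ s ∈ E, s ∉ F) → m ≤ F.card

namespace L5Data

variable {z : V} {E : Finset V}

theorem inType (D : L5Data r z E) {Z F : Finset V} (hs : Sep r Z F) (ho : (mid Z F).card ≤ 3)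
    (hZ : Z.Nonempty) (hF : F.Nonempty) (hzF : z ∉ F) (hEF : ∀ s ∈ E, s ∉ F)
    (L : Low r z E F.card) : False := by
  have claim : ∀ u ∈ F, ∃ P Q, Cut r 3 u P Q ∧ (∀ x ∈ Z, x ∉ P) ∧ z ∈ P ∧
      2 ≤ (F ∩ mid P Q).card := by
    intro u hu
    have huz : u ≠ z := fun h => hzF (h ▸ hu)
    have hind := D.ind u huz fun h => hEF u h hu
    obtain ⟨P, Q, hc⟩ := D.cuts u huz
    obtain ⟨hs2, hs1⟩ := hs.cornerQ hc hu
    have hN : 4 ≤ (mid (Z ∪ P) (F ∩ Q)).card := by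
      by_contra hlt
      have hc' := hs1 (by omega)
      obtain ⟨x, hx, -⟩ := hc'.exists_in hind
      have h1 := L.lowI _ _ hc'.sepR (by rw [hc'.midR]; exact hc'.ord) ⟨u, hc'.memP⟩ ⟨x, hx⟩
        (fun h => hzF (mem_inter.1 (mem_erase.1 h).2).1)
        (fun s hs h => hEF s hs (mem_inter.1 (mem_erase.1 h).2).1)
      have h2 : ((F ∩ Q).erase u).card < (F ∩ Q).card := card_erase_lt_of_mem hc'.memQ
      have h3 := card_le_card (inter_subset_left (s₁ := F) (s₂ := Q))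
      omega
    have hcor := corner Z F P Q
    have ho' := hc.ord
    have hemp : ∀ x ∈ Z, x ∉ P := by
      intro x hx hx'
      have := D.conn _ _ hs2 ⟨x, mem_inter.2 ⟨hx, hx'⟩⟩ ⟨u, mem_union_left _ hu⟩
      omega
    have hzP : z ∈ P := by
      by_contra hzP
      obtain ⟨x, hx, -⟩ := hc.exists_in hind
      have h1 := L.lowO _ _ hc.sepR (by rw [hc.midR]; exact hc.ord) ⟨u, hc.memP⟩ ⟨x, hx⟩ hzP
      have h2 := size_lt' (Y := F) (Q := Q) hemp (by omega)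
      omega
    refine ⟨P, Q, hc, hemp, hzP, ?_⟩
    have h1 : mid (Z ∪ P) (F ∩ Q) ⊆ (mid Z F).erase z ∪ (F ∩ mid P Q) := by
      intro x
      simp only [mem_mid, mem_union, mem_erase, mem_inter]
      intro ⟨h1, h2⟩
      by_cases hx : x ∈ F
      · right; tauto
      · left; exact ⟨fun h => h1 (Or.inr (h ▸ hzP)), by tauto, hx⟩
    have h2 := (card_le_card h1).trans (card_union_le _ _)
    have h3 : ((mid Z F).erase z).card < (mid Z F).card :=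
      card_erase_lt_of_mem (mem_mid.2 ⟨fun h => hemp z h hzP, hzF⟩)
    omega
  obtain ⟨u, hu⟩ := hF
  obtain ⟨P, Q, hc, hZP, hzP, h2⟩ := claim u hu
  obtain ⟨x, hx⟩ : (F ∩ mid P Q).Nonempty := card_pos.1 (by omega)
  rw [mem_inter] at hx
  obtain ⟨P', Q', hc', hZP', hzP', -⟩ := claim x hx.1
  have hF3 : 3 ≤ F.card := by
    have h1 : insert u (F ∩ mid P Q) ⊆ F := insert_subset hu inter_subset_left
    have h3 := card_le_card h1
    rw [card_insert_of_notMem (by simp [hc.memP])] at h3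
    omega
  have hZ3 := L.lowO _ _ hs ho hZ ⟨u, hu⟩ fun h => hZP z h hzP
  have hxT := hx.2
  rw [← hc.midR] at hxT
  obtain ⟨hs1, hs2⟩ := hc.sepR.cornerT hc' hxT
  have hcor := corner' P (Q.erase u) P' Q' hxT hc'.memP hc'.memQ
  rw [hc.midR] at hcor
  have ho1 := hc.ord
  have ho2 := hc'.ord
  have h3 := D.conn _ _ hs1 ⟨z, mem_inter.2 ⟨hzP, hzP'⟩⟩ ⟨x, mem_union_right _ hc'.memQ⟩
  by_cases hne : (Q.erase u ∩ Q').Nonempty
  · have := D.conn _ _ hs2 ⟨z, mem_union_left _ hzP⟩ hne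
    omega
  · have h4 : Z ⊆ mid (P ∪ P') (Q.erase u ∩ Q') := by
      intro y hy
      refine mem_mid.2 ⟨fun h => ?_, fun h => hne ⟨y, h⟩⟩
      rcases mem_union.1 h with h | h
      · exact hZP y hy h
      · exact hZP' y hy h
    have := card_le_card h4
    omega

section outType

variable {F Y : Finset V}

structure OutData (r : V → V → Prop) (z : V) (E F Y : Finset V) : Prop where
  hs : Sep r F Y
  ho : (mid F Y).card ≤ 3
  hF : F.Nonempty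
  hY : Y.Nonempty
  hzF : z ∉ F
  low : Low r z E F.card

theorem gen (D : L5Data r z E) (O : OutData r z E F Y) {w : V} (hw : w ∈ F) {P Q : Finset V}
    (hc : Cut r 3 w P Q) :
    4 ≤ (mid (F ∩ P) (Y ∪ Q)).card ∧ (∀ x ∈ Y, x ∉ Q) ∧
      (z ∈ Q ∨ (z ∉ Q ∧ z ∉ P ∧ ∃ s ∈ E, s ∈ Q)) := by
  have hwz : w ≠ z := fun h => O.hzF (h ▸ hw)
  obtain ⟨hs2, hs1⟩ := O.hs.cornerP hc hw
  have hM : 4 ≤ (mid (F ∩ P) (Y ∪ Q)).card := by
    by_contra hlt
    have hc' := hs1 (by omega)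
    obtain ⟨x, hx, -⟩ := hc'.exists_out (D.outd w hwz)
    have h1 := O.low.lowO _ _ hc'.sepL (by rw [hc'.midL]; exact hc'.ord) ⟨x, hx⟩ ⟨w, hc'.memQ⟩
      (fun h => O.hzF (mem_inter.1 (mem_erase.1 h).2).1)
    have h2 : ((F ∩ P).erase w).card < (F ∩ P).card := card_erase_lt_of_mem hc'.memP
    have h3 := card_le_card (inter_subset_left (s₁ := F) (s₂ := P))
    omega
  have hcor := corner F Y P Q
  have ho' := hc.ord
  have ho := O.ho
  have hemp : ∀ x ∈ Y, x ∉ Q := by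
    intro x hx hx'
    have := D.conn _ _ hs2 ⟨w, mem_union_left _ hw⟩ ⟨x, mem_inter.2 ⟨hx, hx'⟩⟩
    omega
  refine ⟨hM, hemp, ?_⟩
  by_cases hzQ : z ∈ Q
  · exact Or.inl hzQ
  right
  have hsE : ∃ s ∈ E, s ∈ Q := by
    by_contra hno
    push Not at hno
    obtain ⟨x, hx, -⟩ := hc.exists_out (D.outd w hwz)
    have h1 := O.low.lowI _ _ hc.sepL (by rw [hc.midL]; exact hc.ord) ⟨x, hx⟩ ⟨w, hc.memQ⟩ hzQ hno
    have h2 := size_lt (X := F) (P := P) hemp (by omega)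
    omega
  obtain ⟨s, hsE, hsQ⟩ := hsE
  exact ⟨hzQ, fun h => hc.noarc z h s hsQ (D.hE s hsE), s, hsE, hsQ⟩

omit [Fintype V] in
theorem card_aux {M A B : Finset V} (h : M ⊆ A ∪ B) : M.card ≤ A.card + B.card :=
  (card_le_card h).trans (card_union_le _ _)

theorem count (D : L5Data r z E) (O : OutData r z E F Y) {w : V} (hw : w ∈ F) {P Q : Finset V}
    (hc : Cut r 3 w P Q) : 4 ≤ (mid F Y \ Q).card + (F ∩ mid P Q).card := by
  refine (D.gen O hw hc).1.trans (card_aux ?_)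
  intro x
  simp only [mem_mid, mem_union, mem_sdiff, mem_inter]
  tauto

theorem exT (D : L5Data r z E) (O : OutData r z E F Y) {w : V} (hw : w ∈ F) {P Q : Finset V}
    (hc : Cut r 3 w P Q) : ∃ x ∈ F, x ∈ mid P Q := by
  have h1 := D.count O hw hc
  have h2 := card_le_card (sdiff_subset (s := mid F Y) (t := Q))
  have h3 := O.ho
  obtain ⟨x, hx⟩ : (F ∩ mid P Q).Nonempty := card_pos.1 (by omega)
  exact ⟨x, (mem_inter.1 hx).1, (mem_inter.1 hx).2⟩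

/-- two cuts with a common vertex on the in-side -/
theorem pair (D : L5Data r z E) {w x : V} {P Q P' Q' : Finset V}
    (hc : Cut r 3 w P Q) (hc' : Cut r 3 x P' Q') (hx : x ∈ mid P Q) (hne : (Q ∩ Q').Nonempty) :
    (∀ y ∈ P.erase w, y ∉ P') ∧ (Q ∪ Q')ᶜ.card ≤ 2 := by
  rw [← hc.midL] at hx
  obtain ⟨hs1, hs2⟩ := hc.sepL.cornerT hc' hx
  have hcor := corner' _ _ P' Q' hx hc'.memP hc'.memQ
  rw [hc.midL] at hcor
  have ho := hc.ord
  have ho' := hc'.ord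
  have h1 := D.conn _ _ hs2 ⟨x, mem_union_right _ hc'.memP⟩ hne
  have h2 : ∀ y ∈ P.erase w, y ∉ P' := by
    intro y hy hy'
    have := D.conn _ _ hs1 ⟨y, mem_inter.2 ⟨hy, hy'⟩⟩ ⟨w, mem_union_left _ hc.memQ⟩
    omega
  refine ⟨h2, le_trans (card_le_card ?_) (show (mid (P.erase w ∩ P') (Q ∪ Q')).card ≤ 2 by omega)⟩
  intro y hy
  exact mem_mid.2 ⟨fun h => h2 y (mem_inter.1 h).1 (mem_inter.1 h).2, mem_compl.1 hy⟩

theorem unionCut (D : L5Data r z E) {w x : V} {P Q P' Q' : Finset V}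
    (hc : Cut r 3 w P Q) (hc' : Cut r 3 x P' Q') (hx : x ∉ mid P Q) (hxQ : x ∉ Q)
    (hne : (Q ∩ Q').Nonempty) : Cut r 3 x (P.erase w ∩ P') (Q ∪ Q') := by
  have hxP : x ∈ P.erase w := by
    refine mem_erase.2 ⟨fun e => hxQ (e ▸ hc.memQ), ?_⟩
    by_contra h
    exact hx (mem_mid.2 ⟨h, hxQ⟩)
  obtain ⟨hs2, hs1⟩ := hc.sepL.cornerP hc' hxP
  have hcor := corner (P.erase w) Q P' Q'
  rw [hc.midL] at hcor
  have ho := hc.ord
  have ho' := hc'.ord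
  have h1 := D.conn _ _ hs2 ⟨x, mem_union_right _ hc'.memP⟩ hne
  exact hs1 (by omega)

/-- a largest cut among those of a kind contains all vertices with a cut of that kind -/
theorem chain (D : L5Data r z E) (O : OutData r z E F Y) (hY : 3 ≤ Y.card)
    (p : Finset V → Prop) (hp : ∀ Q Q', p Q → p Q' → (Q ∩ Q').Nonempty ∧ p (Q ∪ Q'))
    (hex : ∃ a : V × Finset V × Finset V, a.1 ∈ F ∧ Cut r 3 a.1 a.2.1 a.2.2 ∧ p a.2.2) :
    ∃ w P Q, w ∈ F ∧ Cut r 3 w P Q ∧ p Q ∧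
      ∀ x ∈ F, ∀ P' Q', Cut r 3 x P' Q' → p Q' → x ∈ Q := by
  obtain ⟨⟨w, P, Q⟩, ⟨hw, hc, hpQ⟩, hmax⟩ := exists_max _
    (fun a : V × Finset V × Finset V => a.2.2) hex
  simp only at hw hc hpQ hmax
  refine ⟨w, P, Q, hw, hc, hpQ, fun x hx P' Q' hc' hpQ' => ?_⟩
  by_contra hxQ
  obtain ⟨hne, hpU⟩ := hp Q Q' hpQ hpQ'
  have hxT : x ∉ mid P Q := by
    intro hxT
    have h1 := (D.pair hc hc' hxT hne).2
    have h2 : Y ⊆ (Q ∪ Q')ᶜ := by
      intro y hy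
      simp only [mem_compl, mem_union, not_or]
      exact ⟨(D.gen O hw hc).2.1 y hy, (D.gen O hx hc').2.1 y hy⟩
    have := card_le_card h2
    omega
  have h1 := hmax (x, _, _) ⟨hx, D.unionCut hc hc' hxT hxQ hne, hpU⟩
  have h2 : Q.card < (Q ∪ Q').card :=
    card_lt_card ⟨subset_union_left, fun h => hxQ (h (mem_union_right _ hc'.memQ))⟩
  simp only at h1
  omega

theorem outBig (D : L5Data r z E) (O : OutData r z E F Y) (hY : 3 ≤ Y.card) : False := by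
  have hFz : ∀ w ∈ F, w ≠ z := fun w hw h => O.hzF (h ▸ hw)
  have hpZ : ∀ Q Q' : Finset V, z ∈ Q → z ∈ Q' → (Q ∩ Q').Nonempty ∧ z ∈ Q ∪ Q' :=
    fun Q Q' h h' => ⟨⟨z, mem_inter.2 ⟨h, h'⟩⟩, mem_union_left _ h⟩
  have hpS : ∀ Q Q' : Finset V, (z ∉ Q ∧ ∃ s ∈ E, s ∈ Q) → (z ∉ Q' ∧ ∃ s ∈ E, s ∈ Q') →
      (Q ∩ Q').Nonempty ∧ (z ∉ Q ∪ Q' ∧ ∃ s ∈ E, s ∈ Q ∪ Q') := by
    rintro Q Q' ⟨h1, s, hs, h2⟩ ⟨h3, s', hs', h4⟩
    exact ⟨⟨s, mem_inter.2 ⟨h2, D.one s' hs' s hs ▸ h4⟩⟩, by simp [h1, h3], s, hs,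
      mem_union_left _ h2⟩
  have nopair : ∀ w ∈ F, ∀ x ∈ F, ∀ P Q P' Q', Cut r 3 w P Q → Cut r 3 x P' Q' → x ∈ mid P Q →
      ¬ (Q ∩ Q').Nonempty := by
    intro w hw x hx P Q P' Q' hc hc' hxT hne
    have h1 := (D.pair hc hc' hxT hne).2
    have h2 : Y ⊆ (Q ∪ Q')ᶜ := by
      intro y hy
      simp only [mem_compl, mem_union, not_or]
      exact ⟨(D.gen O hw hc).2.1 y hy, (D.gen O hx hc').2.1 y hy⟩
    have := card_le_card h2
    omega
  have toS : ∀ w ∈ F, ∀ P Q, Cut r 3 w P Q → z ∈ Q → ∀ x ∈ F, x ∈ mid P Q →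
      ∃ P' Q', Cut r 3 x P' Q' ∧ (z ∉ Q' ∧ ∃ s ∈ E, s ∈ Q') := by
    intro w hw P Q hc hz x hx hxT
    obtain ⟨P', Q', hc'⟩ := D.cuts x (hFz x hx)
    rcases (D.gen O hx hc').2.2 with h | h
    · exact absurd (hpZ Q Q' hz h).1 (nopair w hw x hx P Q P' Q' hc hc' hxT)
    · exact ⟨P', Q', hc', h.1, h.2.2⟩
  have toZ : ∀ w ∈ F, ∀ P Q, Cut r 3 w P Q → (z ∉ Q ∧ ∃ s ∈ E, s ∈ Q) → ∀ x ∈ F, x ∈ mid P Q →
      ∃ P' Q', Cut r 3 x P' Q' ∧ z ∈ Q' := by
    intro w hw P Q hc hz x hx hxT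
    obtain ⟨P', Q', hc'⟩ := D.cuts x (hFz x hx)
    rcases (D.gen O hx hc').2.2 with h | h
    · exact ⟨P', Q', hc', h⟩
    · exact absurd (hpS Q Q' hz ⟨h.1, h.2.2⟩).1 (nopair w hw x hx P Q P' Q' hc hc' hxT)
  have both : (∃ a : V × Finset V × Finset V, a.1 ∈ F ∧ Cut r 3 a.1 a.2.1 a.2.2 ∧ z ∈ a.2.2) ∧
      ∃ a : V × Finset V × Finset V, a.1 ∈ F ∧ Cut r 3 a.1 a.2.1 a.2.2 ∧
        (z ∉ a.2.2 ∧ ∃ s ∈ E, s ∈ a.2.2) := by
    obtain ⟨w, hw⟩ := O.hF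
    obtain ⟨P, Q, hc⟩ := D.cuts w (hFz w hw)
    obtain ⟨x, hx, hxT⟩ := D.exT O hw hc
    rcases (D.gen O hw hc).2.2 with h | h
    · obtain ⟨P', Q', hc', h'⟩ := toS w hw P Q hc h x hx hxT
      exact ⟨⟨(w, P, Q), hw, hc, h⟩, ⟨(x, P', Q'), hx, hc', h'⟩⟩
    · obtain ⟨P', Q', hc', h'⟩ := toZ w hw P Q hc ⟨h.1, h.2.2⟩ x hx hxT
      exact ⟨⟨(x, P', Q'), hx, hc', h'⟩, ⟨(w, P, Q), hw, hc, h.1, h.2.2⟩⟩
  obtain ⟨w, P, Q, hw, hc, hzQ, hall⟩ := D.chain O hY (fun Q => z ∈ Q) hpZ both.1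
  obtain ⟨w', P', Q', hw', hc', hS', hall'⟩ :=
    D.chain O hY (fun Q => z ∉ Q ∧ ∃ s ∈ E, s ∈ Q) hpS both.2
  have hzY : z ∉ Y := fun h => (D.gen O hw hc).2.1 z h hzQ
  have h2 : 2 ≤ (F ∩ mid P Q).card := by
    have h1 := D.count O hw hc
    have h3 : (mid F Y \ Q).card < (mid F Y).card :=
      card_lt_card ⟨sdiff_subset, fun h => (mem_sdiff.1 (h (mem_mid.2 ⟨O.hzF, hzY⟩))).2 hzQ⟩
    have := O.ho
    omega
  obtain ⟨x', hx'F, hx'T⟩ := D.exT O hw' hc'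
  obtain ⟨P1, Q1, hc1, h1⟩ := toZ w' hw' P' Q' hc' hS' x' hx'F hx'T
  have hx'Q := hall x' hx'F P1 Q1 hc1 h1
  have hzP' : z ∉ P' := by
    rcases (D.gen O hw' hc').2.2 with h | h
    · exact absurd h hS'.1
    · exact h.2.1
  obtain ⟨hs1, hs2⟩ := hc.sepL.cornerS hc'.sepL
  have hcor := corner (P.erase w) Q (P'.erase w') Q'
  rw [hc.midL, hc'.midL] at hcor
  have ho := hc.ord
  have ho' := hc'.ord
  have hsub : insert z (insert x' (F ∩ mid P Q)) ⊆ mid (P.erase w ∪ P'.erase w') (Q ∩ Q') := by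
    intro y hy
    have hd := hc.sepL.disj y
    have hd' := hc'.sepL.disj y
    simp only [mem_insert, mem_inter, mem_mid, mem_union, mem_erase] at hy hd hd' hx'T ⊢
    rcases hy with rfl | rfl | hy
    · have := hS'.1
      tauto
    · tauto
    · obtain ⟨P2, Q2, hc2, h2⟩ := toS w hw P Q hc hzQ y hy.1 (mem_mid.2 hy.2)
      have := hall' y hy.1 P2 Q2 hc2 h2
      tauto
  have h4 := card_le_card hsub
  rw [card_insert_of_notMem, card_insert_of_notMem] at h4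
  · have hemp : ∀ y, y ∉ P.erase w ∩ P'.erase w' := by
      intro y hy
      have := D.conn _ _ hs1 ⟨y, hy⟩ ⟨w, mem_union_left _ hc.memQ⟩
      omega
    have h5 : Y ⊆ mid (P.erase w ∩ P'.erase w') (Q ∪ Q') := by
      intro y hy
      refine mem_mid.2 ⟨hemp y, ?_⟩
      simp only [mem_union, not_or]
      exact ⟨(D.gen O hw hc).2.1 y hy, (D.gen O hw' hc').2.1 y hy⟩
    have := card_le_card h5
    omega
  · simp [hx'Q]
  · simp only [mem_insert, mem_inter, not_or]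
    exact ⟨fun h => O.hzF (h ▸ hx'F), fun h => O.hzF h.1⟩

theorem outSmall (D : L5Data r z E) (O : OutData r z E F Y) (hY : Y.card ≤ 2) : False := by
  have hFz : ∀ w ∈ F, w ≠ z := fun w hw h => O.hzF (h ▸ hw)
  obtain ⟨w, hw⟩ := O.hF
  obtain ⟨P, Q, hc⟩ := D.cuts w (hFz w hw)
  obtain ⟨x, hx, hxT⟩ := D.exT O hw hc
  obtain ⟨P', Q', hc'⟩ := D.cuts x (hFz x hx)
  have ho := O.ho
  by_cases hzY : z ∈ Y
  · have allS : ∀ w ∈ F, ∀ P Q, Cut r 3 w P Q →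
        (∃ s ∈ E, s ∈ Q) ∧ 2 ≤ (mid F Y \ Q).card := by
      intro w hw P Q hc
      obtain ⟨-, h2, h | h⟩ := D.gen O hw hc
      · exact absurd h (h2 z hzY)
      · refine ⟨h.2.2, ?_⟩
        have h3 := D.count O hw hc
        have h4 : (F ∩ mid P Q).card < (mid P Q).card :=
          card_lt_card ⟨inter_subset_right, fun h' =>
            O.hzF (mem_inter.1 (h' (mem_mid.2 ⟨h.2.1, h.1⟩))).1⟩
        have := hc.ord
        omega
    obtain ⟨⟨s, hs, hsQ⟩, h1⟩ := allS w hw P Q hc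
    obtain ⟨⟨s', hs', hsQ'⟩, h1'⟩ := allS x hx P' Q' hc'
    have h2 := (D.pair hc hc' hxT ⟨s, mem_inter.2 ⟨hsQ, D.one s' hs' s hs ▸ hsQ'⟩⟩).2
    have h3 := D.hz ⟨s, hs⟩ (Y.erase z ∪ mid F Y) fun u hu => by
      by_cases huY : u ∈ Y
      · exact mem_union_left _ (mem_erase.2 ⟨fun h => D.irr z (h ▸ hu), huY⟩)
      · exact mem_union_right _ (mem_mid.2 ⟨fun h => O.hs.noarc u h z hzY hu, huY⟩)
    have h4 := card_union_le (Y.erase z) (mid F Y)
    have h5 : (Y.erase z).card < Y.card := card_erase_lt_of_mem hzY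
    have h6 := card_union_add_card_inter (mid F Y \ Q) (mid F Y \ Q')
    have h7 : ((mid F Y \ Q) ∪ (mid F Y \ Q')).card ≤ (mid F Y).card :=
      card_le_card (union_subset sdiff_subset sdiff_subset)
    obtain ⟨y, hy⟩ : ((mid F Y \ Q) ∩ (mid F Y \ Q')).Nonempty := card_pos.1 (by omega)
    simp only [mem_inter, mem_sdiff, mem_mid] at hy
    have h8 : insert y Y ⊆ (Q ∪ Q')ᶜ := by
      intro a ha
      simp only [mem_compl, mem_union, not_or]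
      rcases mem_insert.1 ha with rfl | ha
      · tauto
      · exact ⟨(D.gen O hw hc).2.1 a ha, (D.gen O hx hc').2.1 a ha⟩
    have h9 := card_le_card h8
    rw [card_insert_of_notMem hy.1.1.2] at h9
    omega
  by_cases hsY : ∃ s ∈ E, s ∈ Y
  · obtain ⟨s, hs, hsY⟩ := hsY
    have allZ : ∀ w ∈ F, ∀ P Q, Cut r 3 w P Q → z ∈ Q := by
      intro w hw P Q hc
      obtain ⟨-, h2, h | ⟨-, -, s', hs', h⟩⟩ := D.gen O hw hc
      · exact h
      · exact absurd (D.one s' hs' s hs ▸ h) (h2 s hsY)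
    have allP : ∀ w ∈ F, ∀ P Q, Cut r 3 w P Q → s ∈ P := by
      intro w hw P Q hc
      by_contra hsP
      have hsQ := (D.gen O hw hc).2.1 s hsY
      have hzQ := allZ w hw P Q hc
      obtain ⟨x, hx, hxT⟩ := D.exT O hw hc
      obtain ⟨P', Q', hc'⟩ := D.cuts x (hFz x hx)
      have hzQ' := allZ x hx P' Q' hc'
      have h1 := (D.pair hc hc' hxT ⟨z, mem_inter.2 ⟨hzQ, hzQ'⟩⟩).1
      have hM := (D.gen O hw hc).1
      have hM' := (D.gen O hx hc').1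
      have hsF : s ∉ F := fun h => O.hs.disj s h hsY
      have ho1 := hc.ord
      have ho2 := hc'.ord
      have hzS : z ∈ mid F Y := mem_mid.2 ⟨O.hzF, hzY⟩
      have h2 : ((mid F Y).erase z).card < (mid F Y).card := card_erase_lt_of_mem hzS
      have h3 : ((mid P Q).erase s).card < (mid P Q).card :=
        card_erase_lt_of_mem (mem_mid.2 ⟨hsP, hsQ⟩)
      have hSP : ∀ y ∈ mid F Y, y ≠ z → y ∈ P := by
        intro y hy hyz
        by_contra hyP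
        have h4 : mid (F ∩ P) (Y ∪ Q) ⊆ ((mid F Y).erase z).erase y ∪ (mid P Q).erase s := by
          intro a
          simp only [mem_mid, mem_union, mem_erase, mem_inter]
          intro ⟨h5, h6⟩
          by_cases haP : a ∈ P
          · left
            exact ⟨fun h => hyP (h ▸ haP), fun h => h6 (Or.inr (h ▸ hzQ)), by tauto, by tauto⟩
          · right
            exact ⟨fun h => h6 (Or.inl (h ▸ hsY)), haP, by tauto⟩
        have h5 := card_aux h4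
        have h6 : (((mid F Y).erase z).erase y).card < ((mid F Y).erase z).card :=
          card_erase_lt_of_mem (mem_erase.2 ⟨hyz, hy⟩)
        omega
      have h4 : mid (F ∩ P') (Y ∪ Q') ⊆ mid P' Q' := by
        intro a
        simp only [mem_mid, mem_union, mem_inter]
        intro ⟨h5, h6⟩
        refine ⟨fun haP => ?_, by tauto⟩
        have haF : a ∉ F := by tauto
        have haz : a ≠ z := fun h => h6 (Or.inr (h ▸ hzQ'))
        exact h1 a (mem_erase.2 ⟨fun h => haF (h ▸ hw),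
          hSP a (mem_mid.2 ⟨haF, by tauto⟩) haz⟩) haP
      have := card_le_card h4
      omega
    have h1 := (D.pair hc hc' hxT ⟨z, mem_inter.2 ⟨allZ w hw P Q hc, allZ x hx P' Q' hc'⟩⟩).1
    exact h1 s (mem_erase.2 ⟨fun h => O.hs.disj s (h ▸ hw) hsY, allP w hw P Q hc⟩)
      (allP x hx P' Q' hc')
  · push Not at hsY
    have hF2 : 2 ≤ F.card := by
      have h1 : ({w, x} : Finset V) ⊆ F := insert_subset hw (singleton_subset_iff.2 hx)
      have h2 := card_le_card h1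
      rwa [card_pair fun (h : w = x) => (mem_mid.1 hxT).1 (h ▸ hc.memP)] at h2
    exact D.inType O.hs ho O.hF O.hY hzY hsY
      ⟨fun F' Y' a b c d e => (hY.trans hF2).trans (O.low.lowO F' Y' a b c d e),
       fun F' Y' a b c d e f => (hY.trans hF2).trans (O.low.lowI F' Y' a b c d e f)⟩

end outType

theorem elim (D : L5Data r z E) : False := by
  have hex : ∃ a : Finset V × Finset V × Bool, (mid a.1 a.2.1).card ≤ 3 ∧ a.1.Nonempty ∧
      a.2.1.Nonempty ∧ z ∉ a.1 ∧ ((a.2.2 = true ∧ Sep r a.1 a.2.1) ∨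
        (a.2.2 = false ∧ Sep r a.2.1 a.1 ∧ ∀ s ∈ E, s ∉ a.1)) := by
    obtain ⟨v, hvz, hvE⟩ := D.ex
    obtain ⟨P, Q, hc⟩ := D.cuts v hvz
    obtain ⟨x, hx, -⟩ := hc.exists_out (D.outd v hvz)
    by_cases hz : z ∈ P
    · refine ⟨(Q, P.erase v, false), ?_, ⟨v, hc.memQ⟩, ⟨x, hx⟩, fun h => hvz (hc.inter z hz h).symm,
        Or.inr ⟨rfl, hc.sepL, fun s hs h => hc.noarc z hz s h (D.hE s hs)⟩⟩
      simp only
      rw [mid_comm, hc.midL]; exact hc.ord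
    · refine ⟨(P.erase v, Q, true), ?_, ⟨x, hx⟩, ⟨v, hc.memQ⟩, fun h => hz (mem_erase.1 h).2,
        Or.inl ⟨rfl, hc.sepL⟩⟩
      simp only
      rw [hc.midL]; exact hc.ord
  obtain ⟨⟨F, Y, b⟩, ⟨ho, hF, hY, hzF, hty⟩, hmin⟩ := exists_min _
    (fun a : Finset V × Finset V × Bool => a.1.card) hex
  simp only at ho hF hY hzF hty hmin
  have L : Low r z E F.card :=
    ⟨fun F' Y' a b c d e => hmin (F', Y', true) ⟨b, c, d, e, Or.inl ⟨rfl, a⟩⟩,
     fun Z' F' a b c d e f => hmin (F', Z', false)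
      ⟨by rw [mid_comm]; exact b, d, c, e, Or.inr ⟨rfl, a, f⟩⟩⟩
  rcases hty with ⟨-, hs⟩ | ⟨-, hs, hE⟩
  · by_cases h : 3 ≤ Y.card
    · exact D.outBig ⟨hs, ho, hF, hY, hzF, L⟩ h
    · exact D.outSmall ⟨hs, ho, hF, hY, hzF, L⟩ (by omega)
  · exact D.inType hs (by rw [mid_comm]; exact ho) hY hF hzF hE L

end L5Data

end Pool.Agent.Lib.MP_c7ba3e_co
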