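import Pool.Agent.Lib.MP_c7ba3e_co.L1
import Pool.Agent.Lib.MP_c7ba3e_co.L5

namespace Pool.Agent.Lib.MP_c7ba3e_co

open Finset

variable {V : Type} [Fintype V] [DecidableEq V] {r : V → V → Prop}

theorem other_nonempty {K X Y : Finset V} (h3 : 3 ≤ Kᶜ.card) (hX : X ⊆ K)
    (ho : (mid X Y).card ≤ 2) : Y.Nonempty := by
  by_contra h
  rw [not_nonempty_iff_eq_empty] at h
  subst h
  have : Kᶜ ⊆ mid X ∅ := by
    intro x hx
    exact mem_mid.2 ⟨fun h => mem_compl.1 hx (hX h), notMem_empty _⟩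
  have := card_le_card this
  omega

theorem atom_in (irr : ∀ v, ¬ r v v) (conn : Conn r 2) (K0 : Finset V)
    (hex : ∃ a : Finset V × Finset V, a.1 ⊆ K0 ∧ a.1.Nonempty ∧ a.2.Nonempty ∧
      (mid a.1 a.2).card ≤ 2 ∧ (Sep r a.1 a.2 ∨ Sep r a.2 a.1))
    (hdeg : ∀ w ∈ K0, OutD r 4 w ∧ InD r 4 w ∧ ∃ P Q, Cut r 3 w P Q)
    (bdO : ∀ K R, K ⊆ K0 → Sep r K R → (mid K R).card ≤ 2 → K.Nonempty → R.Nonempty →
      ∀ t ∈ mid K R, InD r 4 t ∨ (∃ u, r u t ∧ u ∉ K) ∨ ∀ u ∈ K, ¬ r t u)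
    (bdI : ∀ K R, K ⊆ K0 → Sep r R K → (mid K R).card ≤ 2 → K.Nonempty → R.Nonempty →
      ∀ t ∈ mid K R, OutD r 4 t ∨ (∃ u, r t u ∧ u ∉ K) ∨ ∀ u ∈ K, ¬ r u t) : False := by
  obtain ⟨⟨K, R⟩, ⟨hK0, hK, hR, ho, hty⟩, hmin⟩ := exists_min _
    (fun a : Finset V × Finset V => a.1.card) hex
  simp only at hK0 hK hR ho hty hmin
  have h3 : 3 ≤ Kᶜ.card := by
    rcases hty with h | h
    · exact three_le_compl conn h hK hR
    · exact three_le_compl conn.flip h.flip hK hR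
  have ha : ∀ X Y, Sep r X Y → X.Nonempty → X ⊆ K → (mid X Y).card ≤ 2 → X = K :=
    fun X Y hs hX hXK hoX => eq_of_subset_of_card_le hXK
      (hmin (X, Y) ⟨hXK.trans hK0, hX, other_nonempty h3 hXK hoX, hoX, Or.inl hs⟩)
  have hb : ∀ H G, Sep r H G → G.Nonempty → G ⊆ K → (mid H G).card ≤ 2 → G = K :=
    fun H G hs hG hGK hoG => by
      rw [mid_comm] at hoG
      exact eq_of_subset_of_card_le hGK
        (hmin (G, H) ⟨hGK.trans hK0, hG, other_nonempty h3 hGK hoG, hoG, Or.inr hs⟩)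
  rcases hty with hs | hs
  · exact AtomData.elim (r := r) ⟨irr, conn, hs, ho, hK, hR, fun w hw => (hdeg w (hK0 hw)).1,
      fun w hw => (hdeg w (hK0 hw)).2.1, fun w hw => (hdeg w (hK0 hw)).2.2,
      bdO K R hK0 hs ho hK hR, ha, hb⟩
  · refine AtomData.elim (r := flip r) ⟨irr, conn.flip, hs.flip, ho, hK, hR,
      fun w hw => (hdeg w (hK0 hw)).2.1, fun w hw => (hdeg w (hK0 hw)).1, fun w hw => ?_,
      bdI K R hK0 hs ho hK hR, fun X Y h1 h2 h3 h4 => hb Y X h1.flip h2 h3 (by rwa [mid_comm]),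
      fun X Y h1 h2 h3 h4 => ha Y X h1.flip h2 h3 (by rwa [mid_comm])⟩
    obtain ⟨P, Q, hc⟩ := (hdeg w (hK0 hw)).2.2
    exact ⟨Q, P, hc.flip⟩

theorem exists_outN (conn : Conn r 2) {z : V} (ex : ∃ v, v ≠ z) : ∃ u, r z u := by
  by_contra h
  push Not at h
  obtain ⟨v, hv⟩ := ex
  have := conn {z} {z}ᶜ ⟨fun x hx hx' => mem_compl.1 hx' hx, fun a ha b _ => by
    rw [mem_singleton.1 ha]; exact h b⟩ (singleton_nonempty _) ⟨v, by simpa using hv⟩
  simp [mid] at this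

/-- a boundary vertex all of whose out-neighbours lie in the out-side is impossible -/
theorem not_all_out (conn : Conn r 2) {K R : Finset V} (hs : Sep r K R)
    (ho : (mid K R).card ≤ 2) (hR : R.Nonempty) {z : V} (hz : z ∈ mid K R) :
    ∃ u, r z u ∧ u ∉ K := by
  by_contra h
  push Not at h
  have hs' : Sep r (insert z K) R := by
    constructor
    · intro x hx
      rcases mem_insert.1 hx with rfl | hx
      · exact (mem_mid.1 hz).2
      · exact hs.disj x hx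
    · intro a ha b hb hab
      rcases mem_insert.1 ha with rfl | ha
      · exact hs.disj b (h b hab) hb
      · exact hs.noarc a ha b hb hab
  have h1 := conn _ _ hs' (insert_nonempty _ _) hR
  have h2 : mid (insert z K) R = (mid K R).erase z := by
    ext x; simp only [mem_mid, mem_insert, mem_erase]; tauto
  have h3 : ((mid K R).erase z).card < (mid K R).card := card_erase_lt_of_mem hz
  rw [h2] at h1
  omega

theorem exists_not_mem (irr : ∀ v, ¬ r v v) {z : V} (outd : ∀ v, v ≠ z → OutD r 4 v)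
    (ex : ∃ v, v ≠ z) (E : Finset V) (hE : E.card ≤ 2) : ∃ v, v ≠ z ∧ v ∉ E := by
  by_contra h
  push Not at h
  obtain ⟨v, hv⟩ := ex
  have h1 := outd v hv (insert z E) fun u _ => by
    by_cases hu : u = z
    · exact hu ▸ mem_insert_self _ _
    · exact mem_insert_of_mem (h u hu)
  have := card_insert_le z E
  omega

theorem simpleCase (irr : ∀ v, ¬ r v v) (conn : Conn r 2) (z : V)
    (outd : ∀ v, v ≠ z → OutD r 4 v) (ind : ∀ v, v ≠ z → InD r 4 v)
    (cuts : ∀ v, v ≠ z → ∃ P Q, Cut r 3 v P Q) (ex : ∃ v, v ≠ z) : False := by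
  by_cases h3 : Conn r 3
  · obtain ⟨v, hv⟩ := ex
    exact L5Data.elim (r := r) (z := z) (E := ∅) ⟨irr, h3, by simp, by simp, outd,
      fun v hv _ => ind v hv, by simp, cuts, v, hv, by simp⟩
  unfold Conn at h3
  push Not at h3
  obtain ⟨C, R, hs, hC, hR, ho⟩ := h3
  have key : ∀ K0 : Finset V, z ∉ K0 →
      ((∃ u, r u z ∧ u ∉ K0) ∨ ∀ u ∈ K0, ¬ r z u) → ((∃ u, r z u ∧ u ∉ K0) ∨ ∀ u ∈ K0, ¬ r u z) →
      (∃ a : Finset V × Finset V, a.1 ⊆ K0 ∧ a.1.Nonempty ∧ a.2.Nonempty ∧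
      (mid a.1 a.2).card ≤ 2 ∧ (Sep r a.1 a.2 ∨ Sep r a.2 a.1)) → False := by
    intro K0 hz h1 h2 hex
    have hne : ∀ w ∈ K0, w ≠ z := fun w hw h => hz (h ▸ hw)
    refine atom_in irr conn K0 hex
      (fun w hw => ⟨outd w (hne w hw), ind w (hne w hw), cuts w (hne w hw)⟩) ?_ ?_
    · intro K R hK _ _ _ _ t _
      by_cases htz : t = z
      · subst htz
        rcases h1 with ⟨u, h, h'⟩ | h
        · exact Or.inr (Or.inl ⟨u, h, fun h'' => h' (hK h'')⟩)
        · exact Or.inr (Or.inr fun u hu => h u (hK hu))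
      · exact Or.inl (ind t htz)
    · intro K R hK _ _ _ _ t _
      by_cases htz : t = z
      · subst htz
        rcases h2 with ⟨u, h, h'⟩ | h
        · exact Or.inr (Or.inl ⟨u, h, fun h'' => h' (hK h'')⟩)
        · exact Or.inr (Or.inr fun u hu => h u (hK hu))
      · exact Or.inl (outd t htz)
  have exC : ∃ a : Finset V × Finset V, a.1 ⊆ C ∧ a.1.Nonempty ∧ a.2.Nonempty ∧
      (mid a.1 a.2).card ≤ 2 ∧ (Sep r a.1 a.2 ∨ Sep r a.2 a.1) :=
    ⟨(C, R), Subset.rfl, hC, hR, by simp only; omega, Or.inl hs⟩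
  have exR : ∃ a : Finset V × Finset V, a.1 ⊆ R ∧ a.1.Nonempty ∧ a.2.Nonempty ∧
      (mid a.1 a.2).card ≤ 2 ∧ (Sep r a.1 a.2 ∨ Sep r a.2 a.1) :=
    ⟨(R, C), Subset.rfl, hR, hC, by simp only; rw [mid_comm]; omega, Or.inr hs⟩
  obtain ⟨p, hp⟩ := exists_outN conn ex
  obtain ⟨q, hq⟩ := exists_outN conn.flip ex
  by_cases hzC : z ∈ C
  · exact key R (hs.disj z hzC) (Or.inr fun u hu => hs.noarc z hzC u hu)
      (Or.inl ⟨p, hp, fun h => hs.noarc z hzC p h hp⟩) exR
  by_cases hzR : z ∈ R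
  · exact key C hzC (Or.inl ⟨q, hq, fun h => hs.noarc q h z hzR hq⟩)
      (Or.inr fun u hu => hs.noarc u hu z hzR) exC
  by_cases hall : ∃ u, r u z ∧ u ∉ C
  · exact key C hzC (Or.inl hall)
      (Or.inl (not_all_out conn hs (by omega) hR (mem_mid.2 ⟨hzC, hzR⟩))) exC
  · push Not at hall
    exact key R hzR (Or.inl ⟨q, hq, hs.disj q (hall q hq)⟩)
      (Or.inr fun u hu h => hs.disj u (hall u h) hu) exR

theorem thmM (irr : ∀ v, ¬ r v v) (conn : Conn r 2) (z : V) (E : Finset V)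
    (hE : ∀ s ∈ E, r z s) (outd : ∀ v, v ≠ z → OutD r 4 v)
    (ind : ∀ v, v ≠ z → v ∉ E → InD r 4 v)
    (cuts : ∀ v, v ≠ z → ∃ P Q, Cut r 3 v P Q) (ex : ∃ v, v ≠ z)
    (hcase : E = ∅ ∨ ((∀ u, r z u → u ∈ E) ∧ E.card ≤ 2) ∨ (E.card ≤ 1 ∧ InD r 4 z)) :
    False := by
  by_cases hEe : E = ∅
  · subst hEe
    exact simpleCase irr conn z outd (fun v hv => ind v hv (notMem_empty _)) cuts ex
  obtain ⟨s, hs⟩ := nonempty_iff_ne_empty.2 hEe
  replace hcase := hcase.resolve_left hEe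
  have key : (∃ a : Finset V × Finset V, a.1 ⊆ (insert z E)ᶜ ∧ a.1.Nonempty ∧ a.2.Nonempty ∧
      (mid a.1 a.2).card ≤ 2 ∧ (Sep r a.1 a.2 ∨ Sep r a.2 a.1)) → False := by
    intro hex
    have hne : ∀ w ∈ (insert z E)ᶜ, w ≠ z ∧ w ∉ E := fun w hw => by simpa using hw
    refine atom_in irr conn _ hex
      (fun w hw => ⟨outd w (hne w hw).1, ind w (hne w hw).1 (hne w hw).2, cuts w (hne w hw).1⟩)
      ?_ ?_
    · intro K R hK _ _ _ _ t _
      by_cases htz : t = z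
      · subst htz
        rcases hcase with h | h
        · exact Or.inr (Or.inr fun u hu h' => (hne u (hK hu)).2 (h.1 u h'))
        · exact Or.inl h.2
      · by_cases htE : t ∈ E
        · exact Or.inr (Or.inl ⟨z, hE t htE, fun h => (hne z (hK h)).1 rfl⟩)
        · exact Or.inl (ind t htz htE)
    · intro K R hK _ _ _ _ t _
      by_cases htz : t = z
      · subst htz
        exact Or.inr (Or.inl ⟨s, hE s hs, fun h => (hne s (hK h)).2 hs⟩)
      · exact Or.inl (outd t htz)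
  rcases hcase with ⟨h1, h2⟩ | ⟨h1, h2⟩
  · obtain ⟨v, hv⟩ := exists_not_mem irr outd ex E h2
    refine key ⟨((insert z E)ᶜ, {z}), Subset.rfl, ⟨v, by simpa using hv⟩, singleton_nonempty _,
      le_trans (card_le_card ?_) h2, Or.inr ⟨?_, ?_⟩⟩
    · intro x; simp only [mem_mid, mem_compl, mem_insert, mem_singleton]; tauto
    · intro x hx; simp [mem_singleton.1 hx]
    · intro a ha b hb hab
      rw [mem_singleton.1 ha] at hab
      exact mem_compl.1 hb (mem_insert_of_mem (h1 b hab))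
  have hone : ∀ a ∈ E, ∀ b ∈ E, a = b := card_le_one.1 h1
  by_cases h3 : Conn r 3
  · exact L5Data.elim (r := r) (z := z) (E := E) ⟨irr, h3, hE, hone, outd, ind, fun _ => h2, cuts,
      exists_not_mem irr outd ex E (by omega)⟩
  have pos : ∀ K R, Sep r K R → K.Nonempty → R.Nonempty → (mid K R).card ≤ 2 →
      s ∈ K ∧ z ∈ R := by
    intro K R hsep hK hR ho
    have h4 : z ∈ K ∨ s ∈ K := by
      by_contra h
      push Not at h
      refine key ⟨(K, R), fun x hx => ?_, hK, hR, ho, Or.inl hsep⟩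
      simp only [mem_compl, mem_insert, not_or]
      exact ⟨fun e => h.1 (e ▸ hx), fun e => h.2 (hone x e s hs ▸ hx)⟩
    have h5 : z ∈ R ∨ s ∈ R := by
      by_contra h
      push Not at h
      refine key ⟨(R, K), fun x hx => ?_, hR, hK, by simp only; rwa [mid_comm], Or.inr hsep⟩
      simp only [mem_compl, mem_insert, not_or]
      exact ⟨fun e => h.1 (e ▸ hx), fun e => h.2 (hone x e s hs ▸ hx)⟩
    rcases h4 with h4 | h4 <;> rcases h5 with h5 | h5
    · exact absurd h5 (hsep.disj z h4)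
    · exact absurd (hE s hs) (hsep.noarc z h4 s h5)
    · exact ⟨h4, h5⟩
    · exact absurd h5 (hsep.disj s h4)
  have hex : ∃ a : Finset V × Finset V, Sep r a.1 a.2 ∧ a.1.Nonempty ∧ a.2.Nonempty ∧
      (mid a.1 a.2).card ≤ 2 := by
    unfold Conn at h3
    push Not at h3
    obtain ⟨C, R, hs, hC, hR, ho⟩ := h3
    exact ⟨(C, R), hs, hC, hR, by simp only; omega⟩
  obtain ⟨⟨K, R⟩, ⟨hsep, hK, hR, ho⟩, hmin⟩ := exists_min _
    (fun a : Finset V × Finset V => a.1.card) hex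
  simp only at hsep hK hR ho hmin
  obtain ⟨hsK, hzR⟩ := pos K R hsep hK hR ho
  have h3K := three_le_compl conn hsep hK hR
  have hKz : ∀ w ∈ K, w ≠ z := fun w hw h => hsep.disj w hw (h ▸ hzR)
  refine L4Data.false (r := r) (K := K) (R := R) (U := Rᶜ) (e := s) (z := z)
    { irr := irr
      sep := hsep
      ord := ho
      he := hsK
      hU := fun w hw _ => mem_compl.2 (hsep.disj w hw)
      hzK := fun h => hKz z h rfl
      hzU := fun h => mem_compl.1 h hzR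
      outd := fun w hw => outd w (hKz w hw)
      ind := fun w hw hws => ind w (fun h => mem_compl.1 hw (h ▸ hzR))
        fun h => hws (hone w h s hs)
      cuts := fun w hw _ => ?_
      ha := fun X Y hXY hX hXK hoX => eq_of_subset_of_card_le hXK
        (hmin (X, Y) ⟨hXY, hX, other_nonempty h3K hXK hoX, hoX⟩)
      hc := fun H G hHG hG hGU hout => ?_ }
  · obtain ⟨P, Q, hc⟩ := cuts w (hKz w hw)
    rcases dichotomy conn hsep ho hw hc with h | ⟨h4, h5⟩
    · exact ⟨_, _, h, Or.inl inter_subset_left⟩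
    · exact ⟨P, Q, hc, Or.inr ⟨fun x hx => mem_compl.2 fun h => h4 x h hx, h5,
        fun h h' => hc.noarc z h' s h (hE s hs)⟩⟩
  · by_contra hlt
    exact mem_compl.1 (hGU (pos H G hHG (hout.nonempty h3K) hG (by omega)).2) hzR

end Pool.Agent.Lib.MP_c7ba3e_co
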