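import Pool.Agent.Lib.MP_c7ba3e_co.Reduce

namespace Pool.Agent.Lib.MP_c7ba3e_co

open Finset

variable {V : Type} [Fintype V] [DecidableEq V] {r : V → V → Prop}

theorem lowConn_aux {m : ℕ} (conn : Conn r m) (outd : ∀ v, OutD r (m + 1) v)
    (cuts : ∀ v, ∃ P Q, Cut r m v P Q) {v : V} {P0 Q0 : Finset V} (hc0 : Cut r m v P0 Q0)
    (hmin : ∀ w P Q, Cut r m w P Q → P0.card ≤ P.card ∧ P0.card ≤ Q.card) : False := by
  obtain ⟨w, hwX, -⟩ := hc0.exists_out (outd v)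
  obtain ⟨P, Q, hc⟩ := cuts w
  obtain ⟨hs2, hs1⟩ := hc0.sepL.cornerP hc hwX
  have hcard : (P0.erase v).card < P0.card := card_erase_lt_of_mem hc0.memP
  have hM : m + 1 ≤ (mid (P0.erase v ∩ P) (Q0 ∪ Q)).card := by
    by_contra hlt
    have := (hmin w _ _ (hs1 (by omega))).1
    have := card_le_card (inter_subset_left (s₁ := P0.erase v) (s₂ := P))
    omega
  have hcor := corner (P0.erase v) Q0 P Q
  rw [hc0.midL] at hcor
  have ho := hc.ord
  have ho0 := hc0.ord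
  have hemp : ∀ x ∈ Q0, x ∉ Q := by
    intro x hx hx'
    have := conn _ _ hs2 ⟨w, mem_union_left _ hwX⟩ ⟨x, mem_inter.2 ⟨hx, hx'⟩⟩
    omega
  have h1 := (hmin w _ _ hc).2
  have h2 := size_lt (X := P0.erase v) (P := P) hemp (by rw [hc0.midL]; omega)
  omega

theorem lowConn [Nonempty V] {m : ℕ} (conn : Conn r m) (outd : ∀ v, OutD r (m + 1) v)
    (ind : ∀ v, InD r (m + 1) v) (cuts : ∀ v, ∃ P Q, Cut r m v P Q) : False := by
  have hex : ∃ a : V × Finset V × Finset V, Cut r m a.1 a.2.1 a.2.2 := by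
    obtain ⟨v⟩ := ‹Nonempty V›
    obtain ⟨P, Q, hc⟩ := cuts v
    exact ⟨(v, P, Q), hc⟩
  obtain ⟨⟨v, P0, Q0⟩, hc0, hmin⟩ := exists_min _
    (fun a : V × Finset V × Finset V => min a.2.1.card a.2.2.card) hex
  simp only at hc0 hmin
  by_cases h : P0.card ≤ Q0.card
  · refine lowConn_aux conn outd cuts hc0 fun w P Q hc => ?_
    have := hmin (w, P, Q) hc
    simp only at this
    omega
  · refine lowConn_aux (r := flip r) conn.flip ind (fun v => ?_) hc0.flip fun w P Q hc => ?_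
    · obtain ⟨P, Q, hc⟩ := cuts v
      exact ⟨Q, P, hc.flip⟩
    · have := hmin (w, Q, P) hc.flip
      simp only at this
      omega

theorem three_atom (conn : Conn r 1) (outd : ∀ v, OutD r 3 v) (ind : ∀ v, InD r 3 v)
    (cuts : ∀ v, ∃ P Q, Cut r 2 v P Q) {K R : Finset V} (hs : Sep r K R)
    (ho : (mid K R).card ≤ 1) (hK : K.Nonempty) (hR : R.Nonempty)
    (ha : ∀ X Y, Sep r X Y → X.Nonempty → X ⊆ K → (mid X Y).card ≤ 1 → X = K)
    (hb : ∀ H G, Sep r H G → G.Nonempty → G ⊆ K → (mid H G).card ≤ 1 → G = K) : False := by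
  have cuts' : ∀ w ∈ K, ∃ P Q, Cut r 2 w P Q ∧ (P ⊆ K ∨ ∀ x, x ∉ K → x ∈ P) := by
    intro w hw
    obtain ⟨P, Q, hc⟩ := cuts w
    obtain ⟨hs2, hs1⟩ := hs.cornerP hc hw
    by_cases h : (mid (K ∩ P) (R ∪ Q)).card ≤ 2
    · exact ⟨_, _, hs1 h, Or.inl inter_subset_left⟩
    have hcor := corner K R P Q
    have ho' := hc.ord
    refine ⟨P, Q, hc, Or.inr fun x hx => ?_⟩
    by_contra hxP
    by_cases h1 : x ∈ R ∩ Q
    · have := conn _ _ hs2 ⟨w, mem_union_left _ hw⟩ ⟨x, h1⟩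
      omega
    · have := card_pos.2 (⟨x, mem_mid.2 ⟨by simp [hx, hxP], h1⟩⟩ :
        (mid (K ∪ P) (R ∩ Q)).Nonempty)
      omega
  have hQK : ∀ w ∈ K, ∀ P Q, Cut r 2 w P Q → (∀ x, x ∉ K → x ∈ P) → Q ⊆ K := by
    intro w hw P Q hc h x hx
    by_contra hxK
    exact hxK (hc.inter x (h x hxK) hx ▸ hw)
  have hex : ∃ a : V × Finset V × Finset V × Bool, a.1 ∈ K ∧ Cut r 2 a.1 a.2.1 a.2.2.1 ∧
      ((a.2.2.2 = true ∧ a.2.1 ⊆ K) ∨ (a.2.2.2 = false ∧ ∀ x, x ∉ K → x ∈ a.2.1)) := by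
    obtain ⟨w, hw⟩ := hK
    obtain ⟨P, Q, hc, h | h⟩ := cuts' w hw
    · exact ⟨(w, P, Q, true), hw, hc, Or.inl ⟨rfl, h⟩⟩
    · exact ⟨(w, P, Q, false), hw, hc, Or.inr ⟨rfl, h⟩⟩
  obtain ⟨⟨v, P0, Q0, b⟩, ⟨hvK, hc0, hty⟩, hmin⟩ := exists_min _
    (fun a : V × Finset V × Finset V × Bool => if a.2.2.2 then a.2.1.card else a.2.2.1.card) hex
  simp only at hvK hc0 hty hmin
  have minO : ∀ w P Q, w ∈ K → Cut r 2 w P Q → P ⊆ K →
      (if b then P0.card else Q0.card) ≤ P.card := fun w P Q h1 h3 h4 => by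
    simpa using hmin (w, P, Q, true) ⟨h1, h3, Or.inl ⟨rfl, h4⟩⟩
  have minI : ∀ w P Q, w ∈ K → Cut r 2 w P Q → (∀ x, x ∉ K → x ∈ P) →
      (if b then P0.card else Q0.card) ≤ Q.card := fun w P Q h1 h3 h4 => by
    simpa using hmin (w, P, Q, false) ⟨h1, h3, Or.inr ⟨rfl, h4⟩⟩
  clear hmin hex
  have ho0 := hc0.ord
  rcases hty with ⟨rfl, hPK⟩ | ⟨rfl, hout⟩
  · simp only [if_true] at minO minI
    obtain ⟨w, hwX, hvw⟩ := hc0.exists_out (outd v)
    have hwK := hPK (mem_erase.1 hwX).2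
    obtain ⟨P, Q, hc, hty⟩ := cuts' w hwK
    obtain ⟨hs2, hs1⟩ := hc0.sepL.cornerP hc hwX
    have hcard : (P0.erase v).card < P0.card := card_erase_lt_of_mem hc0.memP
    have hM : 3 ≤ (mid (P0.erase v ∩ P) (Q0 ∪ Q)).card := by
      by_contra hlt
      have := minO w _ _ hwK (hs1 (by omega))
        (fun x hx => hPK (mem_erase.1 (mem_inter.1 hx).1).2)
      have := card_le_card (inter_subset_left (s₁ := P0.erase v) (s₂ := P))
      omega
    have hcor := corner (P0.erase v) Q0 P Q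
    rw [hc0.midL] at hcor
    have ho := hc.ord
    have hvP : v ∉ P := fun h => hc.noarc v h w hc.memQ hvw
    rcases hty with hPK' | hout
    · have := ha _ _ hs2 ⟨w, mem_union_left _ hwX⟩
        (union_subset ((erase_subset _ _).trans hPK) hPK') (by omega)
      have h2 : v ∈ P0.erase v ∪ P := this ▸ hvK
      simp [hvP] at h2
    · have hemp : ∀ x ∈ Q0, x ∉ Q := by
        intro x hx hx'
        have := hb _ _ hs2 ⟨x, mem_inter.2 ⟨hx, hx'⟩⟩
          (inter_subset_right.trans (hQK w hwK P Q hc hout)) (by omega)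
        have h2 : w ∈ Q0 ∩ Q := by rw [this]; exact hwK
        exact hc0.sepL.disj w hwX (mem_inter.1 h2).1
      have h1 := minI w _ _ hwK hc hout
      have h2 := size_lt (X := P0.erase v) (P := P) hemp (by rw [hc0.midL]; omega)
      omega
  · simp only [Bool.false_eq_true, if_false] at minO minI
    have hcard : (Q0.erase v).card < Q0.card := card_erase_lt_of_mem hc0.memQ
    obtain ⟨u, huY, -⟩ := hc0.exists_in (ind v)
    have hQ0 := hQK v hvK P0 Q0 hc0 hout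
    have huK := hQ0 (mem_erase.1 huY).2
    obtain ⟨P, Q, hc, hty⟩ := cuts' u huK
    obtain ⟨hs2, hs1⟩ := hc0.sepR.cornerQ hc huY
    have hN : 3 ≤ (mid (P0 ∪ P) (Q0.erase v ∩ Q)).card := by
      by_contra hlt
      have := minI u _ _ huK (hs1 (by omega)) fun x hx => mem_union_left _ (hout x hx)
      have := card_le_card (inter_subset_left (s₁ := Q0.erase v) (s₂ := Q))
      omega
    have hcor := corner P0 (Q0.erase v) P Q
    rw [hc0.midR] at hcor
    have ho := hc.ord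
    have huP0 : u ∉ P0 := fun h => hc0.sepR.disj u h huY
    rcases hty with hPK' | hout'
    · have hemp : ∀ x ∈ P0, x ∉ P := by
        intro x hx hx'
        have := ha _ _ hs2 ⟨x, mem_inter.2 ⟨hx, hx'⟩⟩ (inter_subset_right.trans hPK') (by omega)
        have h2 : u ∈ P0 ∩ P := this ▸ huK
        exact huP0 (mem_inter.1 h2).1
      have h1 := minO u _ _ huK hc hPK'
      have h2 := size_lt' (Y := Q0.erase v) (Q := Q) hemp (by rw [hc0.midR]; omega)
      omega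
    · have h1 := hb _ _ hs2 ⟨u, mem_union_left _ huY⟩
        (union_subset ((erase_subset _ _).trans hQ0) (hQK u huK P Q hc hout')) (by omega)
      obtain ⟨x, hx⟩ := hR
      have hxK : x ∉ K := fun h => hs.disj x h hx
      have h2 := conn _ _ hs2 ⟨x, mem_inter.2 ⟨hout x hxK, hout' x hxK⟩⟩ ⟨u, mem_union_left _ huY⟩
      obtain ⟨y, hy⟩ := card_pos.1 h2
      rw [h1, mem_mid] at hy
      exact hy.1 (mem_inter.2 ⟨hout y hy.2, hout' y hy.2⟩)

theorem three_conn [Nonempty V] (conn : Conn r 1) (outd : ∀ v, OutD r 3 v) (ind : ∀ v, InD r 3 v)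
    (cuts : ∀ v, ∃ P Q, Cut r 2 v P Q) : False := by
  by_cases h2 : Conn r 2
  · exact lowConn h2 outd ind cuts
  have hex : ∃ a : Finset V × Finset V, a.1.Nonempty ∧ a.2.Nonempty ∧
      (mid a.1 a.2).card ≤ 1 ∧ (Sep r a.1 a.2 ∨ Sep r a.2 a.1) := by
    unfold Conn at h2
    push Not at h2
    obtain ⟨C, R, hs, hC, hR, ho⟩ := h2
    exact ⟨(C, R), hC, hR, by simp only; omega, Or.inl hs⟩
  obtain ⟨⟨K, R⟩, ⟨hK, hR, ho, hty⟩, hmin⟩ := exists_min _
    (fun a : Finset V × Finset V => a.1.card) hex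
  simp only at hK hR ho hty hmin
  have h1 : 1 ≤ (mid K R).card ∧ ∀ x ∈ K, x ∉ R := by
    rcases hty with h | h
    · exact ⟨conn _ _ h hK hR, h.disj⟩
    · exact ⟨by rw [mid_comm]; exact conn _ _ h hR hK, h.flip.disj⟩
  have other : ∀ X Y : Finset V, X ⊆ K → (mid X Y).card ≤ 1 → Y.Nonempty := by
    intro X Y hX hoX
    by_contra h
    rw [not_nonempty_iff_eq_empty] at h
    subst h
    obtain ⟨x, hx⟩ := hR
    obtain ⟨y, hy⟩ := card_pos.1 h1.1
    rw [mem_mid] at hy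
    have := card_le_one.1 hoX x (mem_mid.2 ⟨fun h => h1.2 x (hX h) hx, notMem_empty _⟩) y
      (mem_mid.2 ⟨fun h => hy.1 (hX h), notMem_empty _⟩)
    exact hy.2 (this ▸ hx)
  have ha : ∀ X Y, Sep r X Y → X.Nonempty → X ⊆ K → (mid X Y).card ≤ 1 → X = K :=
    fun X Y hs hX hXK hoX => eq_of_subset_of_card_le hXK
      (hmin (X, Y) ⟨hX, other X Y hXK hoX, hoX, Or.inl hs⟩)
  have hb : ∀ H G, Sep r H G → G.Nonempty → G ⊆ K → (mid H G).card ≤ 1 → G = K :=
    fun H G hs hG hGK hoG => by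
      rw [mid_comm] at hoG
      exact eq_of_subset_of_card_le hGK (hmin (G, H) ⟨hG, other G H hGK hoG, hoG, Or.inr hs⟩)
  rcases hty with hs | hs
  · exact three_atom conn outd ind cuts hs ho hK hR ha hb
  · refine three_atom (r := flip r) conn.flip ind outd (fun v => ?_) hs.flip ho hK hR
      (fun X Y h1 h2 h3 h4 => hb Y X h1.flip h2 h3 (by rwa [mid_comm]))
      (fun X Y h1 h2 h3 h4 => ha Y X h1.flip h2 h3 (by rwa [mid_comm]))
    obtain ⟨P, Q, hc⟩ := cuts v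
    exact ⟨Q, P, hc.flip⟩

theorem no_cuts_small [Nonempty V] [DecidableRel r] {m : ℕ} (hm : m ≤ 2)
    (hreg : Reg r (m + 1)) (cuts : ∀ v, ∃ P Q, Cut r m v P Q) : False := by
  obtain ⟨O, ⟨⟨a, ha⟩, hcl⟩, hmin⟩ := exists_min
    (fun O : Finset V => O.Nonempty ∧ ∀ u ∈ O, ∀ v, r u v → v ∈ O) card
    ⟨univ, univ_nonempty, fun _ _ _ _ => mem_univ _⟩
  have hcl' := hreg.flip.closed (X := O) hcl
  let r' : {x // x ∈ O} → {x // x ∈ O} → Prop := fun u v => r u v
  haveI : Nonempty {x // x ∈ O} := ⟨⟨a, ha⟩⟩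
  have conn : Conn r' 1 := by
    rintro P Q hs ⟨p, hp⟩ ⟨q, hq⟩
    by_contra hlt
    have h0 : mid P Q = ∅ := card_eq_zero.1 (by omega)
    have h1 := hmin (lift P) ⟨⟨p, mem_lift.2 ⟨p.2, hp⟩⟩, fun u hu v huv => by
      obtain ⟨h1, h2⟩ := mem_lift.1 hu
      refine mem_lift.2 ⟨hcl u h1 v huv, ?_⟩
      by_contra h3
      exact notMem_empty _ (h0 ▸ mem_mid.2 ⟨h3, fun h4 => hs.noarc _ h2 _ h4 huv⟩)⟩
    rw [card_lift] at h1
    have h2 : P.card < (univ : Finset {x // x ∈ O}).card :=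
      card_lt_card ⟨subset_univ _, fun h => hs.disj q (h (mem_univ _)) hq⟩
    rw [card_univ, Fintype.card_coe] at h2
    omega
  have outd : ∀ v, OutD r' (m + 1) v := fun v S hS => by
    rw [← card_lift]
    exact hreg.outD v _ fun u hu => mem_lift.2 ⟨hcl v v.2 u hu, hS _ hu⟩
  have ind : ∀ v, InD r' (m + 1) v := fun v S hS => by
    rw [← card_lift]
    exact hreg.inD v _ fun u hu => mem_lift.2 ⟨hcl' v v.2 u hu, hS _ hu⟩
  have cuts' : ∀ v, ∃ P Q, Cut r' m v P Q := by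
    intro v
    obtain ⟨P, Q, hc⟩ := cuts v
    refine ⟨P.subtype _, Q.subtype _, mem_subtype.2 hc.memP, mem_subtype.2 hc.memQ,
      fun x h1 h2 => Subtype.ext (hc.inter x (mem_subtype.1 h1) (mem_subtype.1 h2)),
      fun a ha b hb => hc.noarc a (mem_subtype.1 ha) b (mem_subtype.1 hb), le_trans ?_ hc.ord⟩
    rw [← card_lift]
    refine card_le_card fun x hx => ?_
    obtain ⟨h1, h2⟩ := mem_lift.1 hx
    simpa only [mem_mid, mem_subtype] using h2
  by_cases h : m = 2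
  · subst h
    exact three_conn conn outd ind cuts'
  · exact lowConn (fun P Q h1 h2 h3 => le_trans (by omega) (conn P Q h1 h2 h3)) outd ind cuts'

end Pool.Agent.Lib.MP_c7ba3e_co
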