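import Pool.Agent.Lib.MP_c7ba3e_co.Defs
import Pool.Agent.Lib.MP_c7ba3e_co.Menger
import Pool.Agent.Lib.MP_c7ba3e_co.Small

namespace Pool.Agent.Lib.MP_c7ba3e_co

open Finset

theorem exists_cut {V : Type} [Fintype V] [DecidableEq V] (G : Digraph V)
    (irr : ∀ v, ¬ G.Adj v v) (m : ℕ) (w : V)
    (h : ¬ ∃ C : Fin (m + 1) → List V,
      (∀ i, IsCycleAt G w (C i)) ∧ ∀ i j, i ≠ j → List.Disjoint (C i) (C j)) :
    ∃ P Q, Cut G.Adj m w P Q := by
  classical
  let E : Finset (V × V) := univ.filter fun e => G.Adj e.1 e.2 ∧ e.1 ≠ w ∧ e.2 ≠ w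
  let A : Finset V := univ.filter fun u => G.Adj w u
  let B : Finset V := univ.filter fun u => G.Adj u w
  by_cases hs : SepLB E A B (m + 1)
  · exfalso
    obtain ⟨C, a, b, h1, h2⟩ := menger (m + 1) E A B hs
    have h3 : ∀ i, ∃ c : List V, IsCycleAt G w c ∧ ∀ x ∈ c, x ∈ C i := by
      intro i
      obtain ⟨ha, hb, haC, -, hr⟩ := h1 i
      obtain ⟨l, hl1, hl2, hl3⟩ := exists_path hr
      have hwa : G.Adj w (a i) := (mem_filter.1 ha).2
      have hbw : G.Adj (b i) w := (mem_filter.1 hb).2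
      have hall : ∀ x ∈ a i :: l, x ∈ C i ∧ x ≠ w := by
        refine hl2.induction (fun x => x ∈ C i ∧ x ≠ w) _ ?_ ?_
        · intro x y hxy _
          exact ⟨hxy.2.2, (mem_filter.1 hxy.1).2.2.2⟩
        · intro _
          exact ⟨haC, fun h => irr w (by simpa [show a i = w from h] using hwa)⟩
      refine ⟨a i :: l, ⟨by simp, List.nodup_cons.2 ⟨fun h => (hall w h).2 rfl, hl1⟩, ?_⟩,
        fun x hx => (hall x hx).1⟩
      rw [List.cons_append, List.cons_append, List.isChain_cons_cons, ← List.cons_append,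
        List.isChain_append]
      refine ⟨hwa, hl2.imp fun x y hxy => (mem_filter.1 hxy.1).2.1, by simp, ?_⟩
      intro x hx y hy
      rw [List.getLast?_eq_some_getLast (by simp), hl3] at hx
      simp only [Option.mem_def, Option.some.injEq, List.head?_cons] at hx hy
      rw [← hx, ← hy]; exact hbw
    choose c hc1 hc2 using h3
    exact h ⟨c, hc1, fun i j hij x hx hx' => h2 i j hij x (hc2 i x hx) (hc2 j x hx')⟩
  · unfold SepLB at hs
    push Not at hs
    obtain ⟨X, T, h1, h2, h3, h4⟩ := hs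
    refine ⟨insert w (X \ T), insert w (X ∪ T)ᶜ, mem_insert_self _ _, mem_insert_self _ _, ?_, ?_,
      le_trans (card_le_card ?_) (by omega : T.card ≤ m)⟩
    · intro x; simp only [mem_insert, mem_sdiff, mem_compl, mem_union]; tauto
    · intro a ha b hb hab
      by_cases haw : a = w
      · subst haw
        rcases mem_insert.1 hb with hb | hb
        · exact irr a (hb ▸ hab)
        · exact mem_compl.1 hb (h1 (mem_filter.2 ⟨mem_univ _, hab⟩))
      · have haX := (mem_sdiff.1 ((mem_insert.1 ha).resolve_left haw)).1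
        by_cases hbw : b = w
        · exact h2 a haX (mem_filter.2 ⟨mem_univ _, hbw ▸ hab⟩)
        · exact mem_compl.1 ((mem_insert.1 hb).resolve_left hbw)
            (h3 a haX b (mem_filter.2 ⟨mem_univ _, hab, haw, hbw⟩))
    · intro x; simp only [mem_mid, mem_insert, mem_sdiff, mem_compl, mem_union]; tauto

theorem propertyS_succ {m : ℕ} (hm : m ≤ 3) : PropertyS (m + 1) := by
  intro V _ _ G hG
  classical
  haveI := Fintype.ofFinite V
  by_contra h
  have cuts : ∀ w, ∃ P Q, Cut G.Adj m w P Q := fun w =>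
    exists_cut G (fun v => (hG v).1) m w fun ⟨C, hC⟩ => h ⟨w, C, hC⟩
  have hreg : Reg G.Adj (m + 1) := fun v => by
    constructor
    · rw [← (hG v).2.1, ← Set.ncard_coe_finset]; congr 1; ext; simp
    · rw [← (hG v).2.2, ← Set.ncard_coe_finset]; congr 1; ext; simp
  by_cases h3 : m = 3
  · subst h3
    exact no_cuts_four (fun v => (hG v).1) hreg cuts
  · exact no_cuts_small (by omega) hreg cuts

end Pool.Agent.Lib.MP_c7ba3e_co
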