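import Pool.Agent.Lib.MP_c7ba3e_co.L4

namespace Pool.Agent.Lib.MP_c7ba3e_co

open Finset

variable {V : Type} [Fintype V] [DecidableEq V] {r : V → V → Prop}

theorem three_le_compl (hconn : Conn r 2) {K R : Finset V} (hs : Sep r K R) (hK : K.Nonempty)
    (hR : R.Nonempty) : 3 ≤ Kᶜ.card := by
  have h1 := hconn K R hs hK hR
  obtain ⟨x, hx⟩ := hR
  have h2 : insert x (mid K R) ⊆ Kᶜ := by
    intro y hy
    rcases mem_insert.1 hy with h | h
    · exact mem_compl.2 fun hK => hs.disj y hK (h ▸ hx)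
    · exact mem_compl.2 (mem_mid.1 h).1
  have h3 := card_le_card h2
  rw [card_insert_of_notMem (by simp [hx])] at h3
  omega

theorem Out.nonempty {K H : Finset V} (h : Out K H 2) (h3 : 3 ≤ Kᶜ.card) : H.Nonempty := by
  by_contra hne
  rw [not_nonempty_iff_eq_empty] at hne
  subst hne
  simp only [Out, union_empty] at h
  omega

/-- dichotomy for the cut of a vertex of a two-side -/
theorem dichotomy (hconn : Conn r 2) {K R : Finset V} (hs : Sep r K R)
    (ho : (mid K R).card ≤ 2) {w : V} (hw : w ∈ K) {P Q : Finset V} (hc : Cut r 3 w P Q) :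
    Cut r 3 w (K ∩ P) (R ∪ Q) ∨ ((∀ x ∈ R, x ∉ Q) ∧ Out K P 1) := by
  obtain ⟨hs2, hs1⟩ := hs.cornerP hc hw
  by_cases h : (mid (K ∩ P) (R ∪ Q)).card ≤ 3
  · exact Or.inl (hs1 h)
  right
  have hcor := corner K R P Q
  have ho' := hc.ord
  have hemp : ∀ x ∈ R, x ∉ Q := by
    intro x hx hx'
    have := hconn _ _ hs2 ⟨w, mem_union_left _ hw⟩ ⟨x, mem_inter.2 ⟨hx, hx'⟩⟩
    omega
  refine ⟨hemp, le_trans (card_le_card ?_) (show (mid (K ∪ P) (R ∩ Q)).card ≤ 1 by omega)⟩
  intro x
  have := hemp x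
  simp only [mem_compl, mem_mid, mem_inter]
  tauto

structure L1Data (r : V → V → Prop) (K R U : Finset V) : Prop where
  irr : ∀ v, ¬ r v v
  conn : Conn r 2
  sep : Sep r K R
  ord : (mid K R).card ≤ 2
  hK : K.Nonempty
  hR : R.Nonempty
  hKU : K ⊆ U
  hUR : ∀ x ∈ U, x ∉ R
  outd : ∀ w ∈ K, OutD r 4 w
  ind : ∀ w ∈ U, InD r 4 w
  cuts : ∀ w ∈ K, ∃ P Q, Cut r 3 w P Q ∧ (P ⊆ K ∨ (Q ⊆ U ∧ Out K P 1))
  ha : ∀ X Y, Sep r X Y → X.Nonempty → X ⊆ K → (mid X Y).card ≤ 2 → X = K
  hc : ∀ H G, Sep r H G → G.Nonempty → G ⊆ U → Out K H 1 → 3 ≤ (mid H G).card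

theorem L1Data.elim {K R U : Finset V} (D : L1Data r K R U) : False := by
  have hex : ∃ a : V × Finset V × Finset V × Bool, a.1 ∈ K ∧ Cut r 3 a.1 a.2.1 a.2.2.1 ∧
      ((a.2.2.2 = true ∧ a.2.1 ⊆ K) ∨ (a.2.2.2 = false ∧ a.2.2.1 ⊆ U ∧ Out K a.2.1 1)) := by
    obtain ⟨w, hw⟩ := D.hK
    obtain ⟨P, Q, hc, h | h⟩ := D.cuts w hw
    · exact ⟨(w, P, Q, true), hw, hc, Or.inl ⟨rfl, h⟩⟩
    · exact ⟨(w, P, Q, false), hw, hc, Or.inr ⟨rfl, h⟩⟩
  obtain ⟨⟨v, P0, Q0, b⟩, ⟨hvK, hc0, hty⟩, hmin⟩ := exists_min _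
    (fun a : V × Finset V × Finset V × Bool => if a.2.2.2 then a.2.1.card else a.2.2.1.card) hex
  simp only at hvK hc0 hty hmin
  have minO : ∀ w P Q, w ∈ K → Cut r 3 w P Q → P ⊆ K →
      (if b then P0.card else Q0.card) ≤ P.card := fun w P Q h1 h3 h4 => by
    simpa using hmin (w, P, Q, true) ⟨h1, h3, Or.inl ⟨rfl, h4⟩⟩
  have minI : ∀ w P Q, w ∈ K → Cut r 3 w P Q → Q ⊆ U → Out K P 1 →
      (if b then P0.card else Q0.card) ≤ Q.card := fun w P Q h1 h3 h4 h5 => by
    simpa using hmin (w, P, Q, false) ⟨h1, h3, Or.inr ⟨rfl, h4, h5⟩⟩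
  clear hmin hex
  have ho0 := hc0.ord
  rcases hty with ⟨rfl, hPK⟩ | ⟨rfl, hQU, hout⟩
  · simp only [if_true] at minO minI
    obtain ⟨w, hwX, hvw⟩ := hc0.exists_out (D.outd v hvK)
    have hwP0 := (mem_erase.1 hwX).2
    have hwK := hPK hwP0
    obtain ⟨P, Q, hc, hty⟩ := D.cuts w hwK
    obtain ⟨hs2, hs1⟩ := hc0.sepL.cornerP hc hwX
    have hcard : (P0.erase v).card < P0.card := card_erase_lt_of_mem hc0.memP
    have hM : 4 ≤ (mid (P0.erase v ∩ P) (Q0 ∪ Q)).card := by
      by_contra hlt
      have := minO w _ _ hwK (hs1 (by omega))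
        (fun x hx => hPK (mem_erase.1 (mem_inter.1 hx).1).2)
      have := card_le_card (inter_subset_left (s₁ := P0.erase v) (s₂ := P))
      omega
    have hcor := corner (P0.erase v) Q0 P Q
    rw [hc0.midL] at hcor
    have ho := hc.ord
    have hvP : v ∉ P := fun h => hc.noarc v h w hc.memQ hvw
    rcases hty with hPK' | ⟨hQU, hout⟩
    · have := D.ha _ _ hs2 ⟨w, mem_union_left _ hwX⟩
        (union_subset ((erase_subset _ _).trans hPK) hPK') (by omega)
      have h2 : v ∈ P0.erase v ∪ P := this ▸ hvK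
      simp [hvP] at h2
    · have hemp : ∀ x ∈ Q0, x ∉ Q := by
        intro x hx hx'
        have := D.hc _ _ hs2 ⟨x, mem_inter.2 ⟨hx, hx'⟩⟩ (inter_subset_right.trans hQU)
          (hout.mono subset_union_right)
        omega
      have h1 := minI w _ _ hwK hc hQU hout
      have h2 := size_lt (X := P0.erase v) (P := P) hemp (by rw [hc0.midL]; omega)
      omega
  · simp only [Bool.false_eq_true, if_false] at minO minI
    have hcard : (Q0.erase v).card < Q0.card := card_erase_lt_of_mem hc0.memQ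
    have h3K := three_le_compl D.conn D.sep D.hK D.hR
    have claim : ∀ u ∈ Q0.erase v, u ∈ K → ∃ P Q, Cut r 3 u P Q ∧ v ∈ Q ∧
        ∀ t, t ∉ K → t ∉ P0 → t ∈ P := by
      intro u huY huK
      obtain ⟨P, Q, hc, hty⟩ := D.cuts u huK
      obtain ⟨hs2, hs1⟩ := hc0.sepR.cornerQ hc huY
      have hN : 4 ≤ (mid (P0 ∪ P) (Q0.erase v ∩ Q)).card := by
        by_contra hlt
        have := minI u _ _ huK (hs1 (by omega))
          (fun x hx => hQU (mem_erase.1 (mem_inter.1 hx).1).2)
          (hout.mono subset_union_left)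
        have := card_le_card (inter_subset_left (s₁ := Q0.erase v) (s₂ := Q))
        omega
      have hcor := corner P0 (Q0.erase v) P Q
      rw [hc0.midR] at hcor
      have ho := hc.ord
      have huP0 : u ∉ P0 := fun h => hc0.sepR.disj u h huY
      rcases hty with hPK' | ⟨hQU', hout'⟩
      · exfalso
        have hemp : ∀ x ∈ P0, x ∉ P := by
          intro x hx hx'
          have := D.ha _ _ hs2 ⟨x, mem_inter.2 ⟨hx, hx'⟩⟩ (inter_subset_right.trans hPK')
            (by omega)
          have h2 : u ∈ P0 ∩ P := this ▸ huK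
          exact huP0 (mem_inter.1 h2).1
        have h1 := minO u _ _ huK hc hPK'
        have h2 := size_lt' (Y := Q0.erase v) (Q := Q) hemp (by rw [hc0.midR]; omega)
        omega
      · have hGU : Q0.erase v ∪ Q ⊆ U := union_subset ((erase_subset _ _).trans hQU) hQU'
        have hnot : ¬ Out K (P0 ∩ P) 1 := fun h => by
          have := D.hc _ _ hs2 ⟨u, mem_union_left _ huY⟩ hGU h
          omega
        refine ⟨P, Q, hc, ?_, ?_⟩
        · by_contra hvQ
          by_cases hvP : v ∈ P
          · obtain ⟨ht1, -⟩ := D.sep.cornerS hs2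
            have hcor2 := corner K R (P0 ∩ P) (Q0.erase v ∪ Q)
            have h1 : (K ∪ (P0 ∩ P))ᶜ ⊆ mid (K ∪ (P0 ∩ P)) (R ∩ (Q0.erase v ∪ Q)) := by
              intro x hx
              exact mem_mid.2 ⟨mem_compl.1 hx, fun h =>
                D.hUR x (hGU (mem_inter.1 h).2) (mem_inter.1 h).1⟩
            have h2 := card_le_card h1
            have h3 := D.ord
            unfold Out at hnot
            have := D.ha _ _ ht1 ⟨v, mem_inter.2 ⟨hvK, mem_inter.2 ⟨hc0.memP, hvP⟩⟩⟩
              inter_subset_left (by omega)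
            have h4 : u ∈ K ∩ (P0 ∩ P) := by rw [this]; exact huK
            exact huP0 (mem_inter.1 (mem_inter.1 h4).2).1
          · have hs3 : Sep r (P0 ∩ P) (Q0 ∪ Q) := by
              refine ⟨fun x hx hx' => ?_, hc0.noarc.inter_union hc.noarc⟩
              rw [mem_inter] at hx
              rcases mem_union.1 hx' with h | h
              · exact hvP (hc0.inter x hx.1 h ▸ hx.2)
              · exact huP0 (hc.inter x hx.2 h ▸ hx.1)
            have h1 := D.conn _ _ hs3 ((hout.inter hout').nonempty h3K)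
              ⟨v, mem_union_left _ hc0.memQ⟩
            have h2 : mid (P0 ∩ P) (Q0 ∪ Q) ⊆ (mid (P0 ∩ P) (Q0.erase v ∪ Q)).erase v := by
              intro x
              simp only [mem_mid, mem_erase, mem_union, mem_inter]
              intro ⟨h1, h2⟩
              exact ⟨fun h => h2 (Or.inl (h ▸ hc0.memQ)), h1, by tauto⟩
            have h3 := card_le_card h2
            have h4 : ((mid (P0 ∩ P) (Q0.erase v ∪ Q)).erase v).card <
                (mid (P0 ∩ P) (Q0.erase v ∪ Q)).card :=
              card_erase_lt_of_mem (by simp [hvP, hvQ])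
            omega
        · intro t htK htP0
          by_contra htP
          refine hnot (card_le_one.2 fun a ha b hb => ?_)
          have key : ∀ a ∈ (K ∪ (P0 ∩ P))ᶜ, a = t := by
            intro a ha
            simp only [mem_compl, mem_union, mem_inter, not_or] at ha
            by_cases h1 : a ∈ P0
            · exact hout'.eq ha.1 (fun h => ha.2 ⟨h1, h⟩) htK htP
            · exact hout.eq ha.1 h1 htK htP0
          rw [key a ha, key b hb]
    obtain ⟨t, ht, htv⟩ := hc0.exists_in (D.ind v (D.hKU hvK))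
    by_cases htK : t ∈ K
    · obtain ⟨P, Q, hc, hvQ, -⟩ := claim t ht htK
      exact hc.noarc t hc.memP v hvQ htv
    · have htQ := (mem_erase.1 ht).2
      have htP0 : t ∉ P0 := fun h => hc0.sepR.disj t h ht
      have hYK : ∃ u ∈ Q0.erase v, u ∈ K := by
        by_contra hno
        push Not at hno
        have := D.ind t (hQU htQ) (mid P0 Q0) fun u hu => by
          have huP : u ∉ P0 := fun h => hc0.noarc u h t htQ hu
          refine mem_mid.2 ⟨huP, fun huQ => ?_⟩
          have huv : u ≠ v := fun h => huP (h ▸ hc0.memP)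
          have := hout.eq (hno u (mem_erase.2 ⟨huv, huQ⟩)) huP htK htP0
          subst this
          exact D.irr _ hu
        omega
      obtain ⟨u, huY, huK⟩ := hYK
      obtain ⟨P, Q, hc, hvQ, hP⟩ := claim u huY huK
      exact hc.noarc t (hP t htK htP0) v hvQ htv

/-- Data for the main lemma on a two-atom. -/
structure AtomData (r : V → V → Prop) (K R : Finset V) : Prop where
  irr : ∀ v, ¬ r v v
  conn : Conn r 2
  sep : Sep r K R
  ord : (mid K R).card ≤ 2
  hK : K.Nonempty
  hR : R.Nonempty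
  outd : ∀ w ∈ K, OutD r 4 w
  ind : ∀ w ∈ K, InD r 4 w
  cuts : ∀ w ∈ K, ∃ P Q, Cut r 3 w P Q
  bd : ∀ t ∈ mid K R, InD r 4 t ∨ (∃ u, r u t ∧ u ∉ K) ∨ ∀ u ∈ K, ¬ r t u
  ha : ∀ X Y, Sep r X Y → X.Nonempty → X ⊆ K → (mid X Y).card ≤ 2 → X = K
  hb : ∀ H G, Sep r H G → G.Nonempty → G ⊆ K → (mid H G).card ≤ 2 → G = K

theorem AtomData.inner {K R : Finset V} (D : AtomData r K R) {t : V} (ht : t ∈ mid K R)
    (hd : InD r 4 t) :
    ¬ ∃ a : Finset V × Finset V, Sep r a.1 a.2 ∧ t ∈ a.2 ∧ (∀ x, x ∉ a.1 → x ∈ K ∨ x = t) ∧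
      (mid a.1 a.2).card ≤ 2 := by
  intro hex
  obtain ⟨⟨H, G⟩, ⟨hs, htG, hcl, ho⟩, hmin⟩ := exists_min _
    (fun a : Finset V × Finset V => a.2.card) hex
  simp only at hs htG hcl ho hmin
  obtain ⟨z, hz⟩ := D.hR
  rw [mem_mid] at ht
  have hRH : ∀ x ∈ R, x ∈ H := by
    intro x hx
    by_contra h
    rcases hcl x h with h | h
    · exact D.sep.disj x h hx
    · exact ht.2 (h ▸ hx)
  have hGK : ∀ x ∈ G, x ≠ t → x ∈ K := fun x hx hxt =>
    (hcl x fun h => hs.disj x h hx).resolve_right hxt
  have hNK : ∀ x ∈ mid H G, x ∈ K := fun x hx =>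
    (hcl x (mem_mid.1 hx).1).resolve_right fun h => (mem_mid.1 hx).2 (h ▸ htG)
  have hN2 := D.conn _ _ hs ⟨z, hRH z hz⟩ ⟨t, htG⟩
  have h3K := three_le_compl D.conn D.sep D.hK ⟨z, hz⟩
  have hUK : G.erase t ∪ mid H G ⊆ K := by
    intro x hx
    rcases mem_union.1 hx with h | h
    · exact hGK x (mem_erase.1 h).2 (mem_erase.1 h).1
    · exact hNK x h
  refine L4Data.false (r := flip r) (K := G) (R := H) (U := G.erase t ∪ mid H G) (e := t) (z := z)
    { irr := D.irr
      sep := hs.flip
      ord := by rw [mid_comm]; exact ho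
      he := htG
      hU := fun w hw hwt => mem_union_left _ (mem_erase.2 ⟨hwt, hw⟩)
      hzK := hs.disj z (hRH z hz)
      hzU := fun h => D.sep.disj z (hUK h) hz
      outd := fun w hw => ?_
      ind := fun w hw _ => D.outd w (hUK hw)
      cuts := fun u hu hut => ?_
      ha := fun X Y hXY hX hXG hoX => ?_
      hc := fun Y X hXY hX hXU hout => ?_ }
  · by_cases h : w = t
    · exact h ▸ hd
    · exact D.ind w (hGK w hw h)
  · have huK := hGK u hu hut
    obtain ⟨P, Q, hc⟩ := D.cuts u huK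
    rcases dichotomy D.conn.flip hs.flip (by rw [mid_comm]; exact ho) hu hc.flip with h | ⟨h1, h2⟩
    · exact ⟨_, _, h, Or.inl inter_subset_left⟩
    · rcases dichotomy D.conn D.sep D.ord huK hc with h | ⟨-, h4⟩
      · refine ⟨_, _, h.flip, Or.inr ⟨?_, h2.mono subset_union_right,
          fun h => absurd (mem_inter.1 h).1 ht.1⟩⟩
        intro x hx
        rw [mem_inter] at hx
        have hxH : x ∉ H := fun h => h1 x h hx.2
        by_cases hxG : x ∈ G
        · exact mem_union_left _ (mem_erase.2 ⟨fun h => ht.1 (h ▸ hx.1), hxG⟩)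
        · exact mem_union_right _ (mem_mid.2 ⟨hxH, hxG⟩)
      · exfalso
        have h5 : Kᶜ ⊆ insert t (K ∪ P)ᶜ := by
          intro x hx
          rw [mem_compl] at hx
          by_cases hxt : x = t
          · exact hxt ▸ mem_insert_self _ _
          · refine mem_insert_of_mem (mem_compl.2 fun h => ?_)
            rcases mem_union.1 h with h | h
            · exact hx h
            · exact (hcl x fun h' => h1 x h' h).elim hx hxt
        have := (card_le_card h5).trans (card_insert_le _ _)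
        unfold Out at h4
        omega
  · have hs' : Sep r (Y ∪ H) X := by
      constructor
      · intro x hx hx'
        rcases mem_union.1 hx with h | h
        · exact hXY.disj x hx' h
        · exact hs.disj x h (hXG hx')
      · intro a ha b hb
        rcases mem_union.1 ha with h | h
        · exact hXY.noarc b hb a h
        · exact hs.noarc a h b (hXG hb)
    have ho' : (mid (Y ∪ H) X).card ≤ 2 := by
      refine le_trans (card_le_card ?_) hoX
      intro x; simp only [mem_mid, mem_union]; tauto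
    by_cases htX : t ∈ X
    · have := hmin (Y ∪ H, X) ⟨hs', htX, fun x hx => hcl x fun h => hx (mem_union_right _ h), ho'⟩
      exact eq_of_subset_of_card_le hXG this
    · exfalso
      have := D.hb _ _ hs' hX (fun x hx => hGK x (hXG hx) fun h => htX (h ▸ hx)) ho'
      obtain ⟨n, hn⟩ : (mid H G).Nonempty := card_pos.1 (by omega)
      have h1 : n ∈ X := by rw [this]; exact hNK n hn
      exact (mem_mid.1 hn).2 (hXG h1)
  · by_contra hlt
    have hs' : Sep r X Y := hXY.flip
    have hXK := D.ha _ _ hs' hX (hXU.trans hUK) (by rw [mid_comm]; omega)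
    subst hXK
    have h1 : mid H G ⊆ (G ∪ Y)ᶜ := by
      intro x hx
      simp only [mem_compl, mem_union, not_or]
      exact ⟨(mem_mid.1 hx).2, hs'.disj x (hNK x hx)⟩
    have h2 : mid H G = (G ∪ Y)ᶜ := eq_of_subset_of_card_le h1 (le_trans hout hN2)
    have hHY : ∀ x ∈ H, x ∈ Y := by
      intro x hx
      by_contra h
      have : x ∈ mid H G := by
        rw [h2]; simp only [mem_compl, mem_union, not_or]; exact ⟨hs.disj x hx, h⟩
      exact (mem_mid.1 this).1 hx
    have h3 := D.conn _ _ hs' hX ⟨z, hHY z (hRH z hz)⟩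
    have h4 : mid X Y ⊆ {t} := by
      intro x hx
      rw [mem_mid] at hx
      exact mem_singleton.2 ((hcl x fun h => hx.2 (hHY x h)).resolve_left hx.1)
    have := card_le_card h4
    simp only [card_singleton] at this
    omega

theorem AtomData.elim {K R : Finset V} (D : AtomData r K R) : False := by
  classical
  have h3K := three_le_compl D.conn D.sep D.hK D.hR
  refine L1Data.elim (r := r) (K := K) (R := R) (U := K ∪ (mid K R).filter (InD r 4))
    { irr := D.irr
      conn := D.conn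
      sep := D.sep
      ord := D.ord
      hK := D.hK
      hR := D.hR
      hKU := subset_union_left
      hUR := fun x hx => ?_
      outd := D.outd
      ind := fun x hx => ?_
      cuts := fun w hw => ?_
      ha := D.ha
      hc := fun H G hs hG hGU hout => ?_ }
  · rcases mem_union.1 hx with h | h
    · exact D.sep.disj x h
    · exact (mem_mid.1 (mem_filter.1 h).1).2
  · rcases mem_union.1 hx with h | h
    · exact D.ind x h
    · exact (mem_filter.1 h).2
  · obtain ⟨P, Q, hc⟩ := D.cuts w hw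
    rcases dichotomy D.conn D.sep D.ord hw hc with h | ⟨h1, h2⟩
    · exact ⟨_, _, h, Or.inl inter_subset_left⟩
    by_cases hQ : Q ⊆ K ∪ (mid K R).filter (InD r 4)
    · exact ⟨P, Q, hc, Or.inr ⟨hQ, h2⟩⟩
    obtain ⟨t, htQ, htU⟩ := not_subset.1 hQ
    have htK : t ∉ K := fun h => htU (mem_union_left _ h)
    have htB : t ∈ mid K R := mem_mid.2 ⟨htK, fun h => h1 t h htQ⟩
    have htP : t ∉ P := fun h => htK (hc.inter t h htQ ▸ hw)
    have hQK : ∀ x ∈ Q, x ≠ t → x ∈ K := by
      intro x hx hxt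
      by_contra h
      exact hxt (h2.eq h (fun h' => h (hc.inter x h' hx ▸ hw)) htK htP)
    rcases D.bd t htB with h | ⟨u, hut, huK⟩ | h
    · exact absurd (mem_union_right _ (mem_filter.2 ⟨htB, h⟩)) htU
    · exfalso
      have := h2.eq huK (fun h => hc.noarc u h t htQ hut) htK htP
      exact D.irr t (this ▸ hut)
    · refine ⟨insert t P, Q.erase t, ⟨mem_insert_of_mem hc.memP,
        mem_erase.2 ⟨fun e => htK (e ▸ hw), hc.memQ⟩, ?_, ?_, ?_⟩,
        Or.inr ⟨?_, h2.mono (subset_insert _ _)⟩⟩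
      · intro x hx hx'
        rw [mem_erase] at hx'
        exact hc.inter x ((mem_insert.1 hx).resolve_left hx'.1) hx'.2
      · intro a ha b hb
        rw [mem_erase] at hb
        rcases mem_insert.1 ha with h' | h'
        · exact h' ▸ h b (hQK b hb.2 hb.1)
        · exact hc.noarc a h' b hb.2
      · refine le_trans (card_le_card ?_) hc.ord
        intro x; simp only [mem_mid, mem_insert, mem_erase]; tauto
      · intro x hx
        rw [mem_erase] at hx
        exact mem_union_left _ (hQK x hx.2 hx.1)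
  · by_contra hlt
    by_cases hGK : G ⊆ K
    · have := D.hb _ _ hs hG hGK (by omega)
      subst this
      have h1 := D.conn _ _ hs ((hout.le (by omega)).nonempty h3K) hG
      have h2 : mid H G = (G ∪ H)ᶜ := by rw [mid_comm]; rfl
      rw [h2] at h1
      unfold Out at hout
      omega
    · obtain ⟨t, htG, htK⟩ := not_subset.1 hGK
      have ht := mem_filter.1 ((mem_union.1 (hGU htG)).resolve_left htK)
      refine D.inner ht.1 ht.2 ⟨(H, G), hs, htG, fun x hx => ?_, by simp only; omega⟩
      by_cases hxK : x ∈ K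
      · exact Or.inl hxK
      · exact Or.inr (hout.eq hxK hx htK fun h => hs.disj t h htG)

end Pool.Agent.Lib.MP_c7ba3e_co
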