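import Pool.Agent.Lib.MP_c7ba3e_co.Basic

namespace Pool.Agent.Lib.MP_c7ba3e_co

open Finset

variable {V : Type} [Fintype V] [DecidableEq V] {r : V → V → Prop}

/-- at most `n` vertices lie outside both `P` and `K` -/
def Out (K P : Finset V) (n : ℕ) : Prop := (K ∪ P)ᶜ.card ≤ n

theorem Out.mono {K P P' : Finset V} {n : ℕ} (h : Out K P n) (hP : P ⊆ P') : Out K P' n := by
  refine le_trans (card_le_card ?_) h
  intro x; simp only [mem_compl, mem_union]
  have := @hP x
  tauto

theorem Out.le {K P : Finset V} {n n' : ℕ} (h : Out K P n) (hn : n ≤ n') : Out K P n' :=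
  le_trans h hn

theorem Out.inter {K P P' : Finset V} {n n' : ℕ} (h : Out K P n) (h' : Out K P' n') :
    Out K (P ∩ P') (n + n') := by
  refine le_trans (card_le_card ?_) ((card_union_le _ _).trans (add_le_add h h'))
  intro x; simp only [mem_compl, mem_union, mem_inter]
  tauto

theorem Out.erase {K P : Finset V} {n : ℕ} {w : V} (h : Out K P n) (hw : w ∈ K) :
    Out K (P.erase w) n := by
  refine le_trans (card_le_card ?_) h
  intro x; simp only [mem_compl, mem_union, mem_erase]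
  intro h1 h2
  rcases h2 with h2 | h2
  · exact h1 (Or.inl h2)
  · exact h1 (Or.inr ⟨fun e => h1 (Or.inl (e ▸ hw)), h2⟩)

theorem Out.eq {K P : Finset V} (h : Out K P 1) {x y : V} (hx : x ∉ K) (hx' : x ∉ P)
    (hy : y ∉ K) (hy' : y ∉ P) : x = y :=
  card_le_one.1 h x (by simp [hx, hx']) y (by simp [hy, hy'])

/-- Data for the lemma on a two-atom with one exceptional vertex. -/
structure L4Data (r : V → V → Prop) (K R U : Finset V) (e z : V) : Prop where
  irr : ∀ v, ¬ r v v
  sep : Sep r K R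
  ord : (mid K R).card ≤ 2
  he : e ∈ K
  hU : ∀ w ∈ K, w ≠ e → w ∈ U
  hzK : z ∉ K
  hzU : z ∉ U
  outd : ∀ w ∈ K, OutD r 4 w
  ind : ∀ w ∈ U, w ≠ e → InD r 4 w
  cuts : ∀ w ∈ K, w ≠ e → ∃ P Q, Cut r 3 w P Q ∧
    (P ⊆ K ∨ (Q ⊆ U ∧ Out K P 1 ∧ (e ∈ Q → z ∉ P)))
  ha : ∀ X Y, Sep r X Y → X.Nonempty → X ⊆ K → (mid X Y).card ≤ 2 → X = K
  hc : ∀ H G, Sep r H G → G.Nonempty → G ⊆ U → Out K H 2 → 3 ≤ (mid H G).card

namespace L4Data

variable {K R U : Finset V} {e z : V}

/-- Step 1: no cut avoids `e`. -/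
theorem step1 (D : L4Data r K R U e z) :
    ¬ ∃ a : V × Finset V × Finset V × Bool, a.1 ∈ K ∧ a.1 ≠ e ∧ Cut r 3 a.1 a.2.1 a.2.2.1 ∧
      ((a.2.2.2 = true ∧ a.2.1 ⊆ K ∧ e ∉ a.2.1) ∨
       (a.2.2.2 = false ∧ a.2.2.1 ⊆ U ∧ Out K a.2.1 1 ∧ e ∉ a.2.2.1)) := by
  intro hex
  obtain ⟨⟨v, P0, Q0, b⟩, ⟨hvK, hve, hc0, hty⟩, hmin⟩ := exists_min _
    (fun a : V × Finset V × Finset V × Bool => if a.2.2.2 then a.2.1.card else a.2.2.1.card) hex
  simp only at hvK hve hc0 hty hmin
  have minO : ∀ w P Q, w ∈ K → w ≠ e → Cut r 3 w P Q → P ⊆ K → e ∉ P →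
      (if b then P0.card else Q0.card) ≤ P.card := fun w P Q h1 h2 h3 h4 h5 => by
    simpa using hmin (w, P, Q, true) ⟨h1, h2, h3, Or.inl ⟨rfl, h4, h5⟩⟩
  have minI : ∀ w P Q, w ∈ K → w ≠ e → Cut r 3 w P Q → Q ⊆ U → Out K P 1 → e ∉ Q →
      (if b then P0.card else Q0.card) ≤ Q.card := fun w P Q h1 h2 h3 h4 h5 h6 => by
    simpa using hmin (w, P, Q, false) ⟨h1, h2, h3, Or.inr ⟨rfl, h4, h5, h6⟩⟩
  clear hmin hex
  have ho0 := hc0.ord
  rcases hty with ⟨rfl, hPK, heP⟩ | ⟨rfl, hQU, hout, heQ⟩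
  · -- the minimum is an out-cut
    simp only [if_true] at minO minI
    obtain ⟨w, hwX, hvw⟩ := hc0.exists_out (D.outd v hvK)
    have hwP0 := (mem_erase.1 hwX).2
    have hwK := hPK hwP0
    have hwe : w ≠ e := fun h => heP (h ▸ hwP0)
    obtain ⟨P, Q, hc, hty⟩ := D.cuts w hwK hwe
    obtain ⟨hs2, hs1⟩ := hc0.sepL.cornerP hc hwX
    have hcard : (P0.erase v).card < P0.card := card_erase_lt_of_mem hc0.memP
    have hM : 4 ≤ (mid (P0.erase v ∩ P) (Q0 ∪ Q)).card := by
      by_contra hlt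
      have := minO w _ _ hwK hwe (hs1 (by omega))
        (fun x hx => hPK (mem_erase.1 (mem_inter.1 hx).1).2)
        (fun hx => heP (mem_erase.1 (mem_inter.1 hx).1).2)
      have := card_le_card (inter_subset_left (s₁ := P0.erase v) (s₂ := P))
      omega
    have hcor := corner (P0.erase v) Q0 P Q
    rw [hc0.midL] at hcor
    have ho := hc.ord
    have hvP : v ∉ P := fun h => hc.noarc v h w hc.memQ hvw
    rcases hty with hPK' | ⟨hQU, hout, hez⟩
    · have := D.ha _ _ hs2 ⟨w, mem_union_left _ hwX⟩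
        (union_subset ((erase_subset _ _).trans hPK) hPK') (by omega)
      have h2 : v ∈ P0.erase v ∪ P := this ▸ hvK
      simp [hvP] at h2
    · have hemp : ∀ x ∈ Q0, x ∉ Q := by
        intro x hx hx'
        have := D.hc _ _ hs2 ⟨x, mem_inter.2 ⟨hx, hx'⟩⟩ (inter_subset_right.trans hQU)
          ((hout.mono subset_union_right).le (by omega))
        omega
      by_cases heQ : e ∈ Q
      · have hzP := hez heQ
        have hzQ : z ∉ Q := fun h => D.hzU (hQU h)
        have hvQ := hemp v hc0.memQ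
        have heQ0 : e ∉ Q0 := fun h => hemp e h heQ
        have h1 : mid (P0.erase v ∩ P) (Q0 ∪ Q) ⊆
            (mid P0 Q0).erase e ∪ ((mid P Q).erase v).erase z := by
          intro x
          simp only [mem_mid, mem_union, mem_erase, mem_inter]
          intro ⟨h1, h2⟩
          by_cases hx : x ∈ P0
          · right
            have hxv : x ≠ v := fun h => h2 (Or.inl (h ▸ hc0.memQ))
            refine ⟨fun h => D.hzK (h ▸ hPK hx), hxv, ?_, ?_⟩ <;> tauto
          · left
            refine ⟨fun h => h2 (Or.inr (h ▸ heQ)), hx, by tauto⟩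
        have h2 := (card_le_card h1).trans (card_union_le _ _)
        have h3 : ((mid P0 Q0).erase e).card < (mid P0 Q0).card :=
          card_erase_lt_of_mem (by simp [heP, heQ0])
        have h4 : ((mid P Q).erase v).card < (mid P Q).card :=
          card_erase_lt_of_mem (by simp [hvP, hvQ])
        have h5 : (((mid P Q).erase v).erase z).card < ((mid P Q).erase v).card :=
          card_erase_lt_of_mem (by
            simp only [mem_erase, mem_mid]
            exact ⟨fun h => D.hzK (h ▸ hvK), hzP, hzQ⟩)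
        omega
      · have h1 := minI w _ _ hwK hwe hc hQU hout heQ
        have h2 := size_lt (X := P0.erase v) (P := P) hemp (by rw [hc0.midL]; omega)
        omega
  · -- the minimum is an in-cut
    simp only [Bool.false_eq_true, if_false] at minO minI
    have hcard : (Q0.erase v).card < Q0.card := card_erase_lt_of_mem hc0.memQ
    have claim : ∀ u ∈ Q0.erase v, u ∈ K → ∃ P Q, Cut r 3 u P Q ∧ P ⊆ K ∧ e ∈ P ∧ v ∉ P ∧
        ∃ x ∈ Q0.erase v, x ∈ K ∧ x ∈ mid P Q := by
      intro u huY huK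
      have hue : u ≠ e := fun h => heQ (h ▸ (mem_erase.1 huY).2)
      obtain ⟨P, Q, hc, hty⟩ := D.cuts u huK hue
      obtain ⟨hs2, hs1⟩ := hc0.sepR.cornerQ hc huY
      have hN : 4 ≤ (mid (P0 ∪ P) (Q0.erase v ∩ Q)).card := by
        by_contra hlt
        have := minI u _ _ huK hue (hs1 (by omega))
          (fun x hx => hQU (mem_erase.1 (mem_inter.1 hx).1).2)
          (hout.mono subset_union_left)
          (fun hx => heQ (mem_erase.1 (mem_inter.1 hx).1).2)
        have := card_le_card (inter_subset_left (s₁ := Q0.erase v) (s₂ := Q))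
        omega
      have hcor := corner P0 (Q0.erase v) P Q
      rw [hc0.midR] at hcor
      have ho := hc.ord
      rcases hty with hPK' | ⟨hQU', hout', -⟩
      · have hemp : ∀ x ∈ P0, x ∉ P := by
          intro x hx hx'
          have := D.ha _ _ hs2 ⟨x, mem_inter.2 ⟨hx, hx'⟩⟩ (inter_subset_right.trans hPK')
            (by omega)
          have h2 : u ∈ P0 ∩ P := this ▸ huK
          exact hc0.sepR.disj u (mem_inter.1 h2).1 huY
        have heP : e ∈ P := by
          by_contra heP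
          have h1 := minO u _ _ huK hue hc hPK' heP
          have h2 := size_lt' (Y := Q0.erase v) (Q := Q) hemp (by rw [hc0.midR]; omega)
          omega
        refine ⟨P, Q, hc, hPK', heP, hemp v hc0.memP, ?_⟩
        by_contra hno
        push Not at hno
        have heP0 : e ∉ P0 := fun h => hemp e h heP
        have h1 : mid (P0 ∪ P) (Q0.erase v ∩ Q) ⊆ (mid P0 Q0).erase e ∪ ((K ∪ P0)ᶜ ∩ Q0) := by
          intro x
          simp only [mem_mid, mem_union, mem_erase, mem_inter, mem_compl]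
          intro ⟨h1, h2⟩
          have hxv : x ≠ v := fun h => h1 (Or.inl (h ▸ hc0.memP))
          by_cases hx : x ∈ Q0
          · right
            refine ⟨?_, hx⟩
            rintro (hK | hP)
            · exact hno x (mem_erase.2 ⟨hxv, hx⟩) hK (mem_mid.2 ⟨by tauto, by tauto⟩)
            · tauto
          · left
            exact ⟨fun h => h1 (Or.inr (h ▸ heP)), by tauto, hx⟩
        have h2 := (card_le_card h1).trans (card_union_le _ _)
        have h3 : ((mid P0 Q0).erase e).card < (mid P0 Q0).card :=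
          card_erase_lt_of_mem (by simp [heP0, heQ])
        have h4 : ((K ∪ P0)ᶜ ∩ Q0).card ≤ 1 := (card_le_card inter_subset_left).trans hout
        omega
      · have := D.hc _ _ hs2 ⟨u, mem_union_left _ huY⟩
          (union_subset ((erase_subset _ _).trans hQU) hQU') (hout.inter hout')
        omega
    have hYK : ∃ u ∈ Q0.erase v, u ∈ K := by
      by_contra hno
      push Not at hno
      obtain ⟨t, ht, -⟩ := hc0.exists_in (D.ind v (D.hU v hvK hve) hve)
      have htQ := (mem_erase.1 ht).2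
      have := D.ind t (hQU htQ) (fun h => heQ (h ▸ htQ)) (mid P0 Q0) fun u hu => by
        have huP : u ∉ P0 := fun h => hc0.noarc u h t htQ hu
        refine mem_mid.2 ⟨huP, fun huQ => ?_⟩
        have huv : u ≠ v := fun h => huP (h ▸ hc0.memP)
        have := hout.eq (hno u (mem_erase.2 ⟨huv, huQ⟩)) huP (hno t ht)
          (fun h => hc0.sepR.disj t h ht)
        subst this
        exact D.irr _ hu
      omega
    obtain ⟨u, huY, huK⟩ := hYK
    obtain ⟨P, Q, hc, hPK, heP, hvP, x, hxY, hxK, hxT⟩ := claim u huY huK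
    obtain ⟨P', Q', hc', hPK', heP', hvP', -⟩ := claim x hxY hxK
    rw [← hc.midR] at hxT
    obtain ⟨hs1, hs2⟩ := hc.sepR.cornerT hc' hxT
    have hcor := corner' P (Q.erase u) P' Q' hxT hc'.memP hc'.memQ
    rw [hc.midR] at hcor
    have ho := hc.ord
    have ho' := hc'.ord
    by_cases h : (mid (P ∩ P') (Q.erase u ∪ Q')).card ≤ 2
    · have := D.ha _ _ hs1 ⟨e, mem_inter.2 ⟨heP, heP'⟩⟩ (inter_subset_left.trans hPK) h
      have h2 : v ∈ P ∩ P' := this ▸ hvK
      exact hvP (mem_inter.1 h2).1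
    · have := D.ha _ _ hs2 ⟨e, mem_union_left _ heP⟩ (union_subset hPK hPK') (by omega)
      have h2 : v ∈ P ∪ P' := this ▸ hvK
      simp [hvP, hvP'] at h2

theorem noO (D : L4Data r K R U e z) {w : V} {P Q : Finset V} (h1 : w ∈ K) (h2 : w ≠ e)
    (h3 : Cut r 3 w P Q) (h4 : P ⊆ K) : e ∈ P := by
  by_contra h5
  exact D.step1 ⟨(w, P, Q, true), h1, h2, h3, Or.inl ⟨rfl, h4, h5⟩⟩

theorem noI (D : L4Data r K R U e z) {w : V} {P Q : Finset V} (h1 : w ∈ K) (h2 : w ≠ e)
    (h3 : Cut r 3 w P Q) (h4 : Q ⊆ U) (h5 : Out K P 1) : e ∈ Q := by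
  by_contra h6
  exact D.step1 ⟨(w, P, Q, false), h1, h2, h3, Or.inr ⟨rfl, h4, h5, h6⟩⟩

/-- an in-cut -/
def ICut (r : V → V → Prop) (K U : Finset V) (e z w : V) (P Q : Finset V) : Prop :=
  w ∈ K ∧ w ≠ e ∧ Cut r 3 w P Q ∧ Q ⊆ U ∧ Out K P 1 ∧ e ∈ Q ∧ z ∉ P

theorem cuts' (D : L4Data r K R U e z) {w : V} (h1 : w ∈ K) (h2 : w ≠ e) :
    ∃ P Q, Cut r 3 w P Q ∧ ((P ⊆ K ∧ e ∈ P) ∨ ICut r K U e z w P Q) := by
  obtain ⟨P, Q, hc, h | ⟨h3, h4, h5⟩⟩ := D.cuts w h1 h2
  · exact ⟨P, Q, hc, Or.inl ⟨h, D.noO h1 h2 hc h⟩⟩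
  · have := D.noI h1 h2 hc h3 h4
    exact ⟨P, Q, hc, Or.inr ⟨h1, h2, hc, h3, h4, this, h5 this⟩⟩

theorem f1 (D : L4Data r K R U e z) {w x : V} {P Q P' Q' : Finset V}
    (h : ICut r K U e z w P Q) (h' : ICut r K U e z x P' Q') : x ∉ mid P Q := by
  intro hx
  obtain ⟨hwK, -, hc, hQU, hout, heQ, -⟩ := h
  obtain ⟨-, -, hc', hQU', hout', heQ', -⟩ := h'
  rw [← hc.midL] at hx
  obtain ⟨hs1, hs2⟩ := hc.sepL.cornerT hc' hx
  have hcor := corner' _ _ P' Q' hx hc'.memP hc'.memQ
  rw [hc.midL] at hcor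
  have ho := hc.ord
  have ho' := hc'.ord
  have h1 := D.hc _ _ hs1 ⟨e, mem_union_left _ heQ⟩ (union_subset hQU hQU')
    ((hout.erase hwK).inter hout')
  have h2 := D.hc _ _ hs2 ⟨e, mem_inter.2 ⟨heQ, heQ'⟩⟩ (inter_subset_left.trans hQU)
    ((hout'.mono subset_union_right).le (by omega))
  omega

theorem unionI (D : L4Data r K R U e z) {w x : V} {P Q P' Q' : Finset V}
    (h : ICut r K U e z w P Q) (h' : ICut r K U e z x P' Q') (hx : x ∉ Q) :
    ICut r K U e z x (P.erase w ∩ P') (Q ∪ Q') := by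
  have hT := D.f1 h h'
  obtain ⟨hwK, -, hc, hQU, hout, heQ, hzP⟩ := h
  obtain ⟨hxK, hxe, hc', hQU', hout', heQ', hzP'⟩ := h'
  have hxP : x ∈ P.erase w := by
    refine mem_erase.2 ⟨fun e => hx (e ▸ hc.memQ), ?_⟩
    by_contra h
    exact hT (mem_mid.2 ⟨h, hx⟩)
  obtain ⟨hs2, hs1⟩ := hc.sepL.cornerP hc' hxP
  have hcor := corner (P.erase w) Q P' Q'
  rw [hc.midL] at hcor
  have ho := hc.ord
  have ho' := hc'.ord
  have h2 := D.hc _ _ hs2 ⟨e, mem_inter.2 ⟨heQ, heQ'⟩⟩ (inter_subset_left.trans hQU)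
    ((hout'.mono subset_union_right).le (by omega))
  refine ⟨hxK, hxe, hs1 (by omega), union_subset hQU hQU', ?_, mem_union_left _ heQ,
    fun h => hzP' (mem_inter.1 h).2⟩
  refine card_le_one.2 fun a ha b hb => ?_
  have key : ∀ a ∈ (K ∪ (P.erase w ∩ P'))ᶜ, a = z := by
    intro a ha
    simp only [mem_compl, mem_union, mem_inter, mem_erase, not_or] at ha
    by_cases h1 : a ∈ P
    · have h2 : a ∉ P' := fun h => ha.2 ⟨⟨fun e => ha.1 (e ▸ hwK), h1⟩, h⟩
      exact hout'.eq ha.1 h2 D.hzK hzP'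
    · exact hout.eq ha.1 h1 D.hzK hzP
  rw [key a ha, key b hb]

theorem exists_O (D : L4Data r K R U e z) :
    ∃ a : V × Finset V × Finset V, a.1 ∈ K ∧ a.1 ≠ e ∧ Cut r 3 a.1 a.2.1 a.2.2 ∧ a.2.1 ⊆ K := by
  by_contra hno
  have noO : ∀ w P Q, w ∈ K → w ≠ e → Cut r 3 w P Q → ¬ P ⊆ K :=
    fun w P Q h1 h2 h3 h4 => hno ⟨(w, P, Q), h1, h2, h3, h4⟩
  have allI : ∀ w ∈ K, w ≠ e → ∃ P Q, ICut r K U e z w P Q := by
    intro w h1 h2
    obtain ⟨P, Q, hc, h | h⟩ := D.cuts' h1 h2
    · exact absurd h.1 (noO w P Q h1 h2 hc)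
    · exact ⟨P, Q, h⟩
  have hw : ∃ w ∈ K, w ≠ e := by
    by_contra h
    push Not at h
    have := D.outd e D.he (mid K R) fun u hu =>
      mem_mid.2 ⟨fun hK => D.irr e (h u hK ▸ hu), fun hR => D.sep.noarc e D.he u hR hu⟩
    have := D.ord
    omega
  obtain ⟨w, hwK, hwe⟩ := hw
  obtain ⟨P, Q, hI⟩ := allI w hwK hwe
  have hc := hI.2.2.1
  obtain ⟨-, hs1⟩ := D.sep.cornerP hc hwK
  have hM : 4 ≤ (mid (K ∩ P) (R ∪ Q)).card := by
    by_contra hlt
    exact noO w _ _ hwK hwe (hs1 (by omega)) inter_subset_left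
  have : ∃ x ∈ K, x ∈ mid P Q := by
    by_contra h
    push Not at h
    have h1 : mid (K ∩ P) (R ∪ Q) ⊆ mid K R := by
      intro x
      have := h x
      simp only [mem_mid, mem_union, mem_inter] at this ⊢
      tauto
    have := card_le_card h1
    have := D.ord
    omega
  obtain ⟨x, hxK, hxT⟩ := this
  have hxe : x ≠ e := fun h => (mem_mid.1 hxT).2 (h ▸ hI.2.2.2.2.2.1)
  obtain ⟨P', Q', hI'⟩ := allI x hxK hxe
  exact D.f1 hI hI' hxT

theorem false (D : L4Data r K R U e z) : False := by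
  obtain ⟨⟨v, P0, Q0⟩, ⟨hvK, hve, hc0, hPK⟩, hmin⟩ := exists_min _
    (fun a : V × Finset V × Finset V => a.2.1.card) D.exists_O
  simp only at hvK hve hc0 hPK hmin
  have minO : ∀ w P Q, w ∈ K → w ≠ e → Cut r 3 w P Q → P ⊆ K → P0.card ≤ P.card :=
    fun w P Q h1 h2 h3 h4 => hmin (w, P, Q) ⟨h1, h2, h3, h4⟩
  clear hmin
  have ho0 := hc0.ord
  have heP0 := D.noO hvK hve hc0 hPK
  have heX : e ∈ P0.erase v := mem_erase.2 ⟨hve.symm, heP0⟩
  have hXK : P0.erase v ⊆ K := (erase_subset _ _).trans hPK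
  have hcard : (P0.erase v).card < P0.card := card_erase_lt_of_mem hc0.memP
  -- general facts on vertices of `X`
  have gen : ∀ u ∈ P0.erase v, u ≠ e → ∀ P Q, Cut r 3 u P Q →
      4 ≤ (mid (P0.erase v ∩ P) (Q0 ∪ Q)).card ∧ (mid (P0.erase v ∪ P) (Q0 ∩ Q)).card ≤ 2 ∧
      Sep r (P0.erase v ∪ P) (Q0 ∩ Q) := by
    intro u hu hue P Q hc
    obtain ⟨hs2, hs1⟩ := hc0.sepL.cornerP hc hu
    have hM : 4 ≤ (mid (P0.erase v ∩ P) (Q0 ∪ Q)).card := by
      by_contra hlt
      have := minO u _ _ (hXK hu) hue (hs1 (by omega)) (inter_subset_left.trans hXK)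
      have := card_le_card (inter_subset_left (s₁ := P0.erase v) (s₂ := P))
      omega
    have hcor := corner (P0.erase v) Q0 P Q
    rw [hc0.midL] at hcor
    have ho := hc.ord
    exact ⟨hM, by omega, hs2⟩
  have genO : ∀ u ∈ P0.erase v, u ≠ e → (¬ ∃ P Q, ICut r K U e z u P Q) →
      ∀ a ∈ K, (a ∉ P0.erase v ∨ a = e) → ¬ r a u := by
    intro u hu hue hnI a haK ha
    obtain ⟨P, Q, hc, h | h⟩ := D.cuts' (hXK hu) hue
    · obtain ⟨-, h2, h3⟩ := gen u hu hue P Q hc
      have := D.ha _ _ h3 ⟨u, mem_union_left _ hu⟩ (union_subset hXK h.1) h2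
      have haP : a ∈ P := by
        rcases ha with ha | ha
        · have h4 : a ∈ P0.erase v ∪ P := this ▸ haK
          exact (mem_union.1 h4).resolve_left ha
        · exact ha ▸ h.2
      exact hc.noarc a haP u hc.memQ
    · exact absurd ⟨P, Q, h⟩ hnI
  by_cases hXI : ∃ a : V × Finset V × Finset V, a.1 ∈ P0.erase v ∧ ICut r K U e z a.1 a.2.1 a.2.2
  swap
  · have := D.outd e D.he (mid P0 Q0) fun u hu => by
      have huQ : u ∉ Q0 := fun h => hc0.noarc e heP0 u h hu
      refine mem_mid.2 ⟨fun huP => ?_, huQ⟩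
      have huX : u ∈ P0.erase v := mem_erase.2 ⟨fun h => huQ (h ▸ hc0.memQ), huP⟩
      have hue : u ≠ e := fun h => D.irr e (h ▸ hu)
      exact genO u huX hue (fun ⟨P, Q, h⟩ => hXI ⟨(u, P, Q), huX, h⟩) e D.he (Or.inr rfl) hu
    omega
  obtain ⟨⟨w, P, Q⟩, ⟨hwX, hI⟩, hmax⟩ := exists_max _
    (fun a : V × Finset V × Finset V => a.2.2) hXI
  simp only at hwX hI hmax
  have inQ : ∀ a ∈ K, a ∉ P0.erase v → ∀ u ∈ P0.erase v, r a u → u ∈ Q := by
    intro a haK ha u hu hau
    by_cases hue : u = e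
    · exact hue ▸ hI.2.2.2.2.2.1
    by_contra huQ
    refine genO u hu hue ?_ a haK (Or.inl ha) hau
    rintro ⟨P', Q', hI'⟩
    have h1 := hmax (u, _, _) ⟨hu, D.unionI hI hI' huQ⟩
    have h2 : Q.card < (Q ∪ Q').card :=
      card_lt_card ⟨subset_union_left, fun h => huQ (h (mem_union_right _ hI'.2.2.1.memQ))⟩
    simp only at h1
    omega
  obtain ⟨hwK, hwe, hc, hQU, hout, heQ, hzP⟩ := hI
  obtain ⟨hM, hN, hs2⟩ := gen w hwX hwe P Q hc
  have ho := hc.ord
  have hemp : ∀ x ∈ Q0, x ∉ Q := by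
    intro x hx hx'
    have := D.hc _ _ hs2 ⟨x, mem_inter.2 ⟨hx, hx'⟩⟩ (inter_subset_right.trans hQU)
      ((hout.mono subset_union_right).le (by omega))
    omega
  have hzQ : z ∉ Q := fun h => D.hzU (hQU h)
  have hvQ := hemp v hc0.memQ
  have hvP : v ∉ P := by
    obtain ⟨u, hu, hvu⟩ := hc0.exists_out (D.outd v hvK)
    exact fun h => hc.noarc v h u (inQ v hvK (notMem_erase _ _) u hu hvu) hvu
  have h4 : ((mid P Q).erase v).card < (mid P Q).card :=
    card_erase_lt_of_mem (by simp [hvP, hvQ])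
  have h5 : (((mid P Q).erase v).erase z).card < ((mid P Q).erase v).card :=
    card_erase_lt_of_mem (by
      simp only [mem_erase, mem_mid]
      exact ⟨fun h => D.hzK (h ▸ hvK), hzP, hzQ⟩)
  -- the rest of `K` lies in `P`
  have hW : ∀ a ∈ K, a ∉ P0 → a ∈ P := by
    intro a haK ha
    by_contra haP
    have hav : a ≠ v := fun h => ha (h ▸ hc0.memP)
    have haz : a ≠ z := fun h => D.hzK (h ▸ haK)
    by_cases haQ : a ∈ Q
    · have haQ0 : a ∉ Q0 := fun h => hemp a h haQ
      have h1 : mid (P0.erase v ∩ P) (Q0 ∪ Q) ⊆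
          (mid P0 Q0).erase a ∪ ((mid P Q).erase v).erase z := by
        intro x
        simp only [mem_mid, mem_union, mem_erase, mem_inter]
        intro ⟨h1, h2⟩
        by_cases hx : x ∈ P0
        · right
          have hxv : x ≠ v := fun h => h2 (Or.inl (h ▸ hc0.memQ))
          refine ⟨fun h => D.hzK (h ▸ hPK hx), hxv, ?_, ?_⟩ <;> tauto
        · left
          refine ⟨fun h => h2 (Or.inr (h ▸ haQ)), hx, by tauto⟩
      have h2 := (card_le_card h1).trans (card_union_le _ _)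
      have h3 : ((mid P0 Q0).erase a).card < (mid P0 Q0).card :=
        card_erase_lt_of_mem (by simp [ha, haQ0])
      omega
    · have h1 : mid (P0.erase v ∩ P) (Q0 ∪ Q) ⊆
          mid P0 Q0 ∪ (((mid P Q).erase v).erase z).erase a := by
        intro x
        simp only [mem_mid, mem_union, mem_erase, mem_inter]
        intro ⟨h1, h2⟩
        by_cases hx : x ∈ P0
        · right
          have hxv : x ≠ v := fun h => h2 (Or.inl (h ▸ hc0.memQ))
          refine ⟨fun h => ha (h ▸ hx), fun h => D.hzK (h ▸ hPK hx), hxv, ?_, ?_⟩ <;> tauto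
        · left
          exact ⟨hx, by tauto⟩
      have h2 := (card_le_card h1).trans (card_union_le _ _)
      have h3 : ((((mid P Q).erase v).erase z).erase a).card <
          (((mid P Q).erase v).erase z).card :=
        card_erase_lt_of_mem (by simp [hav, haz, haP, haQ])
      omega
  have hord := D.ord
  have hsW : Sep r (K \ P0) (P0.erase v ∪ R) := by
    constructor
    · intro x hx hx'
      rw [mem_sdiff] at hx
      rcases mem_union.1 hx' with h | h
      · exact hx.2 (mem_erase.1 h).2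
      · exact D.sep.disj x hx.1 h
    · intro a ha b hb hab
      rw [mem_sdiff] at ha
      rcases mem_union.1 hb with h | h
      · exact hc.noarc a (hW a ha.1 ha.2) b
          (inQ a ha.1 (fun h' => ha.2 (mem_erase.1 h').2) b h hab) hab
      · exact D.sep.noarc a ha.1 b h hab
  have hoW : (mid (K \ P0) (P0.erase v ∪ R)).card ≤ 3 := by
    have h1 : mid (K \ P0) (P0.erase v ∪ R) ⊆ insert v (mid K R) := by
      intro x
      simp only [mem_mid, mem_union, mem_erase, mem_sdiff, mem_insert]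
      have := @hPK x
      tauto
    have := (card_le_card h1).trans (card_insert_le _ _)
    omega
  have hnoW : ∀ a ∈ P0, ∀ b ∈ K \ P0, ¬ r a b := by
    intro a ha b hb
    have hbK := (mem_sdiff.1 hb).1
    have hbe : b ≠ e := fun h => (mem_sdiff.1 hb).2 (h ▸ heP0)
    obtain ⟨P', Q', hc', hty⟩ := D.cuts' hbK hbe
    obtain ⟨ht2, ht1⟩ := hsW.cornerP hc' hb
    have hM' : 4 ≤ (mid (K \ P0 ∩ P') (P0.erase v ∪ R ∪ Q')).card := by
      by_contra hlt
      have := D.noO hbK hbe (ht1 (by omega)) (inter_subset_left.trans sdiff_subset)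
      exact (mem_sdiff.1 (mem_inter.1 this).1).2 heP0
    have hcor := corner (K \ P0) (P0.erase v ∪ R) P' Q'
    have ho' := hc'.ord
    rcases hty with h | h
    · have := D.ha _ _ ht2 ⟨b, mem_union_left _ hb⟩ (union_subset sdiff_subset h.1) (by omega)
      have h4 : a ∈ K \ P0 ∪ P' := by rw [this]; exact hPK ha
      have haP : a ∈ P' := (mem_union.1 h4).resolve_left fun h => (mem_sdiff.1 h).2 ha
      exact hc'.noarc a haP b hc'.memQ
    · obtain ⟨-, -, -, hQU', hout', heQ', -⟩ := h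
      have := D.hc _ _ ht2 ⟨e, mem_inter.2 ⟨mem_union_left _ heX, heQ'⟩⟩
        (inter_subset_right.trans hQU') ((hout'.mono subset_union_right).le (by omega))
      omega
  by_cases hWe : (K \ P0).Nonempty
  · have hs : Sep r P0 (K \ P0 ∪ R) := by
      constructor
      · intro x hx hx'
        rcases mem_union.1 hx' with h | h
        · exact (mem_sdiff.1 h).2 hx
        · exact D.sep.disj x (hPK hx) h
      · intro a ha b hb
        rcases mem_union.1 hb with h | h
        · exact hnoW a ha b h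
        · exact D.sep.noarc a (hPK ha) b h
    have h1 : mid P0 (K \ P0 ∪ R) ⊆ mid K R := by
      intro x
      simp only [mem_mid, mem_union, mem_sdiff]
      tauto
    have := D.ha _ _ hs ⟨v, hc0.memP⟩ hPK ((card_le_card h1).trans hord)
    obtain ⟨b, hb⟩ := hWe
    rw [this] at hb
    simp at hb
  · have hs : Sep r (P0.erase v) (insert v R) := by
      constructor
      · intro x hx hx'
        rcases mem_insert.1 hx' with h | h
        · exact (mem_erase.1 hx).1 h
        · exact D.sep.disj x (hXK hx) h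
      · intro a ha b hb
        rcases mem_insert.1 hb with h | h
        · exact h ▸ hc0.noarc a (mem_erase.1 ha).2 v hc0.memQ
        · exact D.sep.noarc a (hXK ha) b h
    have h1 : mid (P0.erase v) (insert v R) ⊆ mid K R := by
      intro x
      simp only [mem_mid, mem_insert, mem_erase]
      intro ⟨h1, h2⟩
      refine ⟨fun hK => hWe ⟨x, mem_sdiff.2 ⟨hK, ?_⟩⟩, by tauto⟩
      tauto
    have := D.ha _ _ hs ⟨e, heX⟩ hXK ((card_le_card h1).trans hord)
    have h2 : v ∈ P0.erase v := this ▸ hvK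
    simp at h2

end L4Data

end Pool.Agent.Lib.MP_c7ba3e_co
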