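import Pool.Agent.Lib.MP_c7ba3e_co.Glue

namespace Pool.Agent.Lib.MP_c7ba3e_co

open Finset

variable {V : Type} [Fintype V] [DecidableEq V] {r : V → V → Prop} [DecidableRel r]

/-- regularity -/
def Reg (r : V → V → Prop) [DecidableRel r] (k : ℕ) : Prop :=
  ∀ v, (univ.filter fun u => r v u).card = k ∧ (univ.filter fun u => r u v).card = k

instance : DecidableRel (flip r) := fun a b => inferInstanceAs (Decidable (r b a))

omit [DecidableEq V] in
theorem Reg.flip {k : ℕ} (h : Reg r k) : Reg (flip r) k := fun v => ⟨(h v).2, (h v).1⟩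

omit [DecidableEq V] in
theorem Reg.outD {k : ℕ} (h : Reg r k) (v : V) : OutD r k v := fun S hS => by
  rw [← (h v).1]
  exact card_le_card fun u hu => hS u (mem_filter.1 hu).2

omit [DecidableEq V] in
theorem Reg.inD {k : ℕ} (h : Reg r k) (v : V) : InD r k v := h.flip.outD v

theorem Reg.euler {k : ℕ} (h : Reg r k) (X : Finset V) :
    ∑ v ∈ X, (Xᶜ.filter fun u => r u v).card = ∑ u ∈ X, (Xᶜ.filter fun v => r u v).card := by
  have split : ∀ p : V → Prop, ∀ [DecidablePred p],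
      (univ.filter p).card = (X.filter p).card + (Xᶜ.filter p).card := by
    intro p _
    rw [← card_union_of_disjoint (disjoint_filter_filter disjoint_compl_right), ← filter_union,
      union_compl]
  have h1 : ∑ v ∈ X, (X.filter fun u => r u v).card = ∑ u ∈ X, (X.filter fun v => r u v).card := by
    simp only [card_filter]
    exact sum_comm
  have h2 : ∑ v ∈ X, (X.filter fun u => r u v).card + ∑ v ∈ X, (Xᶜ.filter fun u => r u v).card =
      ∑ v ∈ X, k := by
    rw [← sum_add_distrib]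
    exact sum_congr rfl fun v _ => by rw [← split, (h v).2]
  have h3 : ∑ v ∈ X, (X.filter fun u => r v u).card + ∑ v ∈ X, (Xᶜ.filter fun u => r v u).card =
      ∑ v ∈ X, k := by
    rw [← sum_add_distrib]
    exact sum_congr rfl fun v _ => by rw [← split, (h v).1]
  omega

theorem Reg.closed {k : ℕ} (h : Reg r k) {X : Finset V} (hX : ∀ v ∈ X, ∀ u, r u v → u ∈ X) :
    ∀ u ∈ X, ∀ v, r u v → v ∈ X := by
  intro u hu v huv
  by_contra hv
  have h1 := h.euler X
  have h2 : ∑ v ∈ X, (Xᶜ.filter fun u => r u v).card = 0 := by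
    refine sum_eq_zero fun v hv => card_eq_zero.2 (filter_eq_empty_iff.2 fun u hu huv => ?_)
    exact mem_compl.1 hu (hX v hv u huv)
  rw [h2, eq_comm, sum_eq_zero_iff] at h1
  exact filter_eq_empty_iff.1 (card_eq_zero.1 (h1 u hu)) (mem_compl.2 hv) huv

/-- all arcs leaving `O` start at `z` -/
def Valid (r : V → V → Prop) (O : Finset V) (z : V) : Prop :=
  z ∈ O ∧ (∃ a ∈ O, a ≠ z) ∧ ∀ u ∈ O, u ≠ z → ∀ v, r u v → v ∈ O

/-- lift of a finite set of a subtype -/
def lift {O : Finset V} (P : Finset {x // x ∈ O}) : Finset V := P.map (Function.Embedding.subtype _)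

omit [Fintype V] [DecidableEq V] in
theorem mem_lift {O : Finset V} {P : Finset {x // x ∈ O}} {x : V} :
    x ∈ lift P ↔ ∃ h : x ∈ O, (⟨x, h⟩ : {x // x ∈ O}) ∈ P := by
  simp [lift]

omit [Fintype V] [DecidableEq V] in
theorem card_lift {O : Finset V} (P : Finset {x // x ∈ O}) : (lift P).card = P.card :=
  card_map _

omit [DecidableRel r] in
theorem valid_of_sep (irr : ∀ v, ¬ r v v) (hout : ∀ v, OutD r 1 v) {O : Finset V}
    {P Q : Finset {x // x ∈ O}} (hP : P.Nonempty) (hQ : Q.Nonempty) (ho : (mid P Q).card ≤ 1)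
    (hd : ∀ x ∈ P, x ∉ Q)
    (hcl : ∀ u ∈ P, ∀ v, r u v → ∃ h : v ∈ O, (⟨v, h⟩ : {x // x ∈ O}) ∉ Q) :
    ∃ O' z', Valid r O' z' ∧ O'.card < O.card := by
  have hcard : (lift Qᶜ).card < O.card := by
    rw [card_lift, card_compl, Fintype.card_coe]
    have h1 := card_pos.2 hQ
    have h2 := card_le_univ Q
    rw [Fintype.card_coe] at h2
    omega
  have hcl' : ∀ u ∈ P, ∀ v, r u v → v ∈ lift Qᶜ := fun u hu v huv =>
    let ⟨h, h'⟩ := hcl u hu v huv; mem_lift.2 ⟨h, mem_compl.2 h'⟩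
  obtain ⟨p, hp⟩ := hP
  by_cases hm : (mid P Q).Nonempty
  · obtain ⟨y, hy⟩ := hm
    refine ⟨lift Qᶜ, y, ⟨mem_lift.2 ⟨y.2, mem_compl.2 (mem_mid.1 hy).2⟩,
      ⟨p, mem_lift.2 ⟨p.2, mem_compl.2 (hd p hp)⟩,
        fun h => (mem_mid.1 hy).1 (Subtype.ext h ▸ hp)⟩, ?_⟩, hcard⟩
    intro u hu huy v huv
    obtain ⟨h1, h2⟩ := mem_lift.1 hu
    refine hcl' ⟨u, h1⟩ ?_ v huv
    by_contra h3
    exact huy (congrArg Subtype.val
      (card_le_one.1 ho _ (mem_mid.2 ⟨h3, mem_compl.1 h2⟩) y hy))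
  · have hex : ∃ v, r p v := by
      by_contra h
      push Not at h
      have := hout p ∅ fun u hu => absurd hu (h u)
      simp at this
    obtain ⟨v, hv⟩ := hex
    refine ⟨lift Qᶜ, p, ⟨mem_lift.2 ⟨p.2, mem_compl.2 (hd p hp)⟩,
      ⟨v, hcl' p hp v hv, fun h => irr _ (h ▸ hv)⟩, ?_⟩, hcard⟩
    intro u hu _ v huv
    obtain ⟨h1, h2⟩ := mem_lift.1 hu
    refine hcl' ⟨u, h1⟩ ?_ v huv
    by_contra h3
    exact hm ⟨_, mem_mid.2 ⟨h3, mem_compl.1 h2⟩⟩

/-- the contracted digraph -/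
def contr (r : V → V → Prop) (O : Finset V) (z : V) (u v : {x // x ∈ O}) : Prop :=
  (u.1 ≠ z ∧ r u v) ∨ (u.1 = z ∧ v.1 ≠ z ∧ ∃ x, (x ∉ O ∨ x = z) ∧ r x v)

omit [DecidableRel r] in
theorem Cut.down {m : ℕ} {O : Finset V} {z w : V} (hw : w ∈ O) {P Q : Finset V}
    (hc : Cut r m w P Q)
    (hz : z ∈ P → ∀ v ∈ Q, v ∈ O → ∀ x, x ∉ O → ¬ r x v) :
    Cut (contr r O z) m ⟨w, hw⟩ (P.subtype _) (Q.subtype _) := by
  refine ⟨mem_subtype.2 hc.memP, mem_subtype.2 hc.memQ, fun x h1 h2 =>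
    Subtype.ext (hc.inter x (mem_subtype.1 h1) (mem_subtype.1 h2)), ?_, ?_⟩
  · intro a ha b hb hab
    rw [mem_subtype] at ha hb
    rcases hab with h | ⟨h1, -, x, h2 | h2, h3⟩
    · exact hc.noarc a ha b hb h.2
    · exact hz (h1 ▸ ha) b hb b.2 x h2 h3
    · exact hc.noarc x (h2 ▸ h1 ▸ ha) b hb h3
  · refine le_trans ?_ hc.ord
    rw [← card_lift]
    refine card_le_card fun x hx => ?_
    obtain ⟨h1, h2⟩ := mem_lift.1 hx
    simpa only [mem_mid, mem_subtype] using h2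

theorem red4 (irr : ∀ v, ¬ r v v) (hreg : Reg r 4) (cuts : ∀ v, ∃ P Q, Cut r 3 v P Q)
    {O : Finset V} {z : V} (hv : Valid r O z)
    (hmin : ∀ O' z', Valid r O' z' ∨ Valid (flip r) O' z' → O.card ≤ O'.card) : False := by
  obtain ⟨hz, ⟨a0, ha0, ha0z⟩, hcl⟩ := hv
  let z0 : {x // x ∈ O} := ⟨z, hz⟩
  have hne : ∀ v : {x // x ∈ O}, v ≠ z0 → v.1 ≠ z := fun v hv h => hv (Subtype.ext h)
  let M : V → Finset V := fun v => (O.erase z)ᶜ.filter fun u => r u v
  have hM : ∀ v x, x ∈ M v ↔ (x ∉ O ∨ x = z) ∧ r x v := by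
    intro v x
    simp only [M, mem_filter, mem_compl, mem_erase]
    tauto
  have hout1 : ∀ v, OutD r 1 v := fun v S hS => le_trans (by omega) (hreg.outD v S hS)
  have hin1 : ∀ v, OutD (flip r) 1 v := fun v S hS => le_trans (by omega) (hreg.inD v S hS)
  have irr' : ∀ v, ¬ contr r O z v v := by
    rintro v (h | h)
    · exact irr _ h.2
    · exact h.2.1 h.1
  have conn : Conn (contr r O z) 2 := by
    intro P Q hs hP hQ
    by_contra hlt
    by_cases hzP : z0 ∈ P
    · obtain ⟨O', z', h1, h2⟩ := valid_of_sep (r := flip r) irr hin1 hQ hP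
        (by rw [mid_comm]; omega) (fun x hx hx' => hs.disj x hx' hx) (by
          intro u hu v huv
          have huz : u.1 ≠ z := hne u fun h => hs.disj z0 hzP (h ▸ hu)
          have h3 : ¬ (v ∉ O ∨ v = z) := fun h =>
            hs.noarc z0 hzP u hu (Or.inr ⟨rfl, huz, v, h, huv⟩)
          push Not at h3
          exact ⟨h3.1, fun h => hs.noarc _ h u hu (Or.inl ⟨h3.2, huv⟩)⟩)
      have := hmin O' z' (Or.inr h1)
      omega
    · obtain ⟨O', z', h1, h2⟩ := valid_of_sep (r := r) irr hout1 hP hQ (by omega) hs.disj (by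
          intro u hu v huv
          have huz : u.1 ≠ z := hne u fun h => hzP (h ▸ hu)
          exact ⟨hcl u u.2 huz v huv, fun h => hs.noarc u hu _ h (Or.inl ⟨huz, huv⟩)⟩)
      have := hmin O' z' (Or.inl h1)
      omega
  have outd : ∀ v, v ≠ z0 → OutD (contr r O z) 4 v := by
    intro v hv S hS
    rw [← card_lift]
    exact hreg.outD v _ fun u hu =>
      mem_lift.2 ⟨hcl v v.2 (hne v hv) u hu, hS _ (Or.inl ⟨hne v hv, hu⟩)⟩
  have ind : ∀ v, v ≠ z0 → (M v).card ≤ 1 → InD (contr r O z) 4 v := by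
    intro v hv hMv S hS
    have h1 := hreg.inD v (lift (S.erase z0) ∪ M v) fun u hu => by
      by_cases h : u ∉ O ∨ u = z
      · exact mem_union_right _ ((hM v u).2 ⟨h, hu⟩)
      · push Not at h
        exact mem_union_left _ (mem_lift.2 ⟨h.1, mem_erase.2
          ⟨fun e => h.2 (congrArg Subtype.val e), hS _ (Or.inl ⟨h.2, hu⟩)⟩⟩)
    have h2 := card_union_le (lift (S.erase z0)) (M v)
    rw [card_lift] at h2
    by_cases hMe : (M v).Nonempty
    · obtain ⟨x, hx⟩ := hMe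
      have h3 : (S.erase z0).card < S.card :=
        card_erase_lt_of_mem (hS z0 (Or.inr ⟨rfl, hne v hv, x, (hM v x).1 hx⟩))
      omega
    · have h3 := card_erase_le (s := S) (a := z0)
      have h4 := card_eq_zero.2 (not_nonempty_iff_eq_empty.1 hMe)
      omega
  have cuts' : ∀ v, v ≠ z0 → ∃ P Q, Cut (contr r O z) 3 v P Q := by
    rintro ⟨w, hw⟩ hv
    have hwA : w ∈ O.erase z := mem_erase.2 ⟨hne _ hv, hw⟩
    obtain ⟨P, Q, hc⟩ := cuts w
    have hs : Sep r (O.erase z) Oᶜ :=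
      ⟨fun x hx hx' => mem_compl.1 hx' (mem_erase.1 hx).2, fun a ha b hb hab =>
        mem_compl.1 hb (hcl a (mem_erase.1 ha).2 (mem_erase.1 ha).1 b hab)⟩
    obtain ⟨hs2, hs1⟩ := hs.cornerP hc hwA
    by_cases h : (mid (O.erase z ∩ P) (Oᶜ ∪ Q)).card ≤ 3
    · exact ⟨_, _, (hs1 h).down hw fun h' => absurd rfl (mem_erase.1 (mem_inter.1 h').1).1⟩
    have hcor := corner (O.erase z) Oᶜ P Q
    have h1 : (mid (O.erase z) Oᶜ).card ≤ 1 := by
      refine le_trans (card_le_card ?_) (card_singleton z).le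
      intro x; simp only [mem_mid, mem_erase, mem_compl, mem_singleton]; tauto
    have ho := hc.ord
    have h2 : ∀ x, x ∉ mid (O.erase z ∪ P) (Oᶜ ∩ Q) := by
      have : mid (O.erase z ∪ P) (Oᶜ ∩ Q) = ∅ := card_eq_zero.1 (by omega)
      simp [this]
    refine ⟨_, _, hc.down hw fun _ v hvQ hvO x hx hxv => ?_⟩
    have hxP : x ∉ P := fun h => hc.noarc x h v hvQ hxv
    have hxG : x ∈ Oᶜ ∩ Q := by
      by_contra h3
      exact h2 x (mem_mid.2 ⟨by simp [hx, hxP], h3⟩)
    have := hreg.closed (X := Oᶜ ∩ Q) (fun b hb a hab => by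
      by_contra h3
      refine h2 a (mem_mid.2 ⟨fun h4 => hs2.noarc a h4 b hb hab, h3⟩)) x hxG v hxv
    exact mem_compl.1 (mem_inter.1 this).1 hvO
  have ex : ∃ v, v ≠ z0 := ⟨⟨a0, ha0⟩, fun h => ha0z (congrArg Subtype.val h)⟩
  -- counting
  let D : Finset V := (O.erase z).filter fun u => r u z
  have hsum : ∑ v ∈ O.erase z, (M v).card = D.card := by
    rw [hreg.euler, card_filter]
    refine sum_congr rfl fun u hu => ?_
    rw [mem_erase] at hu
    split_ifs with h
    · rw [card_eq_one]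
      refine ⟨z, ?_⟩
      ext x
      simp only [mem_filter, mem_compl, mem_erase, mem_singleton]
      constructor
      · rintro ⟨h1, h2⟩
        by_contra h3
        exact h1 ⟨h3, hcl u hu.2 hu.1 x h2⟩
      · rintro rfl
        exact ⟨fun h1 => h1.1 rfl, h⟩
    · rw [card_eq_zero, filter_eq_empty_iff]
      intro x hx h2
      simp only [mem_compl, mem_erase] at hx
      refine hx ⟨fun h3 => h (h3 ▸ h2), hcl u hu.2 hu.1 x h2⟩
  have hD4 : D.card ≤ 4 := by
    rw [← (hreg z).2]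
    exact card_le_card (filter_subset_filter _ (subset_univ _))
  let E1 : Finset {x // x ∈ O} := univ.filter fun v => v ≠ z0 ∧ 1 ≤ (M v).card
  let E2 : Finset {x // x ∈ O} := univ.filter fun v => v ≠ z0 ∧ 2 ≤ (M v).card
  have hE1 : ∀ s, s ∈ E1 ↔ contr r O z z0 s := by
    intro s
    simp only [E1, mem_filter, mem_univ, true_and]
    constructor
    · rintro ⟨h1, h2⟩
      obtain ⟨x, hx⟩ := card_pos.1 h2
      exact Or.inr ⟨rfl, hne s h1, x, (hM s x).1 hx⟩
    · rintro (h | ⟨-, h1, x, h2⟩)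
      · exact absurd rfl h.1
      · exact ⟨fun h => h1 (congrArg Subtype.val h), card_pos.2 ⟨x, (hM s x).2 h2⟩⟩
  have hE21 : E2 ⊆ E1 := by
    intro s
    simp only [E1, E2, mem_filter, mem_univ, true_and]
    exact fun h => ⟨h.1, by omega⟩
  have hcount : E1.card + E2.card ≤ D.card := by
    rw [← hsum, ← card_lift E1, ← card_lift E2]
    have h1 : lift E1 = (O.erase z).filter fun v => 1 ≤ (M v).card := by
      ext x
      simp only [mem_lift, E1, mem_filter, mem_univ, true_and, mem_erase]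
      constructor
      · rintro ⟨h1, h2, h3⟩; exact ⟨⟨hne _ h2, h1⟩, h3⟩
      · rintro ⟨⟨h1, h2⟩, h3⟩; exact ⟨h2, fun h => h1 (congrArg Subtype.val h), h3⟩
    have h2 : lift E2 = (O.erase z).filter fun v => 2 ≤ (M v).card := by
      ext x
      simp only [mem_lift, E2, mem_filter, mem_univ, true_and, mem_erase]
      constructor
      · rintro ⟨h1, h2, h3⟩; exact ⟨⟨hne _ h2, h1⟩, h3⟩
      · rintro ⟨⟨h1, h2⟩, h3⟩; exact ⟨h2, fun h => h1 (congrArg Subtype.val h), h3⟩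
    rw [h1, h2, card_filter, card_filter, ← sum_add_distrib]
    refine sum_le_sum fun v _ => ?_
    split_ifs <;> omega
  by_cases h2 : E1.card ≤ 2
  · refine thmM irr' conn z0 E1 (fun s hs => (hE1 s).1 hs) outd (fun v hv hvE => ind v hv ?_)
      cuts' ex (Or.inr (Or.inl ⟨fun u hu => (hE1 u).2 hu, h2⟩))
    simp only [E1, mem_filter, mem_univ, true_and, not_and] at hvE
    have := hvE hv
    omega
  · refine thmM irr' conn z0 E2 (fun s hs => (hE1 s).1 (hE21 hs)) outd
      (fun v hv hvE => ind v hv ?_) cuts' ex ?_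
    · simp only [E2, mem_filter, mem_univ, true_and, not_and] at hvE
      have := hvE hv
      omega
    · by_cases h3 : E2 = ∅
      · exact Or.inl h3
      have h4 := card_pos.2 (nonempty_iff_ne_empty.2 h3)
      refine Or.inr (Or.inr ⟨by omega, fun S hS => ?_⟩)
      rw [← card_lift]
      refine le_trans (by omega : 4 ≤ D.card) (card_le_card fun u hu => ?_)
      simp only [D, mem_filter, mem_erase] at hu
      exact mem_lift.2 ⟨hu.1.2, hS _ (Or.inl ⟨hu.1.1, hu.2⟩)⟩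

theorem no_cuts_four [Nonempty V] (irr : ∀ v, ¬ r v v) (hreg : Reg r 4)
    (cuts : ∀ v, ∃ P Q, Cut r 3 v P Q) : False := by
  have hex : ∃ a : Finset V × V, Valid r a.1 a.2 ∨ Valid (flip r) a.1 a.2 := by
    obtain ⟨z⟩ := ‹Nonempty V›
    obtain ⟨u, hu⟩ : (univ.filter fun u => r z u).Nonempty := card_pos.1 (by rw [(hreg z).1]; omega)
    exact ⟨(univ, z), Or.inl ⟨mem_univ _, ⟨u, mem_univ _, fun h =>
      irr z (by have := (mem_filter.1 hu).2; rwa [h] at this)⟩, fun _ _ _ _ _ => mem_univ _⟩⟩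
  obtain ⟨⟨O, z⟩, hv, hmin⟩ := exists_min _ (fun a : Finset V × V => a.1.card) hex
  rcases hv with hv | hv
  · exact red4 irr hreg cuts hv fun O' z' h => hmin (O', z') h
  · refine red4 (r := flip r) irr hreg.flip (fun v => ?_) hv fun O' z' h => hmin (O', z') h.symm
    obtain ⟨P, Q, hc⟩ := cuts v
    exact ⟨Q, P, hc.flip⟩

end Pool.Agent.Lib.MP_c7ba3e_co
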